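import Pool.Agent.Work.MP_bde882_al_h62.JobDefs

/-!
Job module 3 (generated).
-/

set_option autoImplicit false
set_option maxRecDepth 100000
set_option linter.defProp false

namespace Pool.Agent.Work.MP_bde882_al.J62

open Pool.Agent.Work.MP_bde882_al.Pg62
open Pool.Agent.Work.MP_bde882_al.Tab
open Pool.Agent.Work.MP_bde882_al.H69

noncomputable def J3 : List (ℕ × ℕ × Hd × Op) :=
  [ (0, 0, ⟨304, 4, 70⟩, T4_69), (0, 0, ⟨514, 4, 100⟩, T4_136) ]

def j3 : allJ GA lf J3 = true := by decide +kernel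

end Pool.Agent.Work.MP_bde882_al.J62
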