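import Pool.Agent.Work.MP_bde882_al_h62.JobDefs

/-!
Job module 19 (generated).
-/

set_option autoImplicit false
set_option maxRecDepth 100000
set_option linter.defProp false

namespace Pool.Agent.Work.MP_bde882_al.J62

open Pool.Agent.Work.MP_bde882_al.Pg62
open Pool.Agent.Work.MP_bde882_al.Tab
open Pool.Agent.Work.MP_bde882_al.H69

noncomputable def J19 : List (ℕ × ℕ × Hd × Op) :=
  [ (0, 0, ⟨1025, 5, 197⟩, T5_512), (0, 0, ⟨1040, 5, 203⟩, T5_256), (0, 0, ⟨21, 6, 12⟩, T6_2474),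
    (0, 0, ⟨36, 6, 18⟩, T6_2473), (0, 0, ⟨36, 6, 18⟩, T6_2470), (0, 0, ⟨51, 6, 24⟩, T6_2469),
    (0, 0, ⟨51, 6, 24⟩, T6_2457), (0, 0, ⟨51, 6, 24⟩, T6_2454), (0, 0, ⟨66, 6, 30⟩, T6_2453),
    (0, 0, ⟨66, 6, 30⟩, T6_2393), (0, 0, ⟨81, 6, 36⟩, T6_2389), (0, 0, ⟨261, 6, 54⟩, T6_2218),
    (0, 0, ⟨276, 6, 60⟩, T6_2472), (0, 0, ⟨276, 6, 60⟩, T6_2217), (0, 0, ⟨276, 6, 60⟩, T6_2466),
    (0, 0, ⟨276, 6, 60⟩, T6_2214), (0, 0, ⟨276, 6, 60⟩, T6_2442) ]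

def j19 : allJ GA lf J19 = true := by decide +kernel

end Pool.Agent.Work.MP_bde882_al.J62
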