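import Pool.Agent.Work.MP_bde882_al_h62.JobDefs

/-!
Job module 22 (generated).
-/

set_option autoImplicit false
set_option maxRecDepth 100000
set_option linter.defProp false

namespace Pool.Agent.Work.MP_bde882_al.J62

open Pool.Agent.Work.MP_bde882_al.Pg62
open Pool.Agent.Work.MP_bde882_al.Tab
open Pool.Agent.Work.MP_bde882_al.H69

noncomputable def J22 : List (ℕ × ℕ × Hd × Op) :=
  [ (0, 0, ⟨321, 6, 78⟩, T6_2388), (0, 0, ⟨321, 6, 78⟩, T6_2385), (0, 0, ⟨321, 6, 78⟩, T6_2373),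
    (0, 0, ⟨321, 6, 78⟩, T6_2325), (0, 0, ⟨321, 6, 78⟩, T6_2133), (0, 0, ⟨336, 6, 84⟩, T6_1109),
    (0, 0, ⟨516, 6, 102⟩, T6_2216), (0, 0, ⟨516, 6, 102⟩, T6_2210), (0, 0, ⟨531, 6, 108⟩, T6_2464),
    (0, 0, ⟨531, 6, 108⟩, T6_2212), (0, 0, ⟨531, 6, 108⟩, T6_2440), (0, 0, ⟨531, 6, 108⟩, T6_2200),
    (0, 0, ⟨531, 6, 108⟩, T6_2209), (0, 0, ⟨531, 6, 108⟩, T6_2185), (0, 0, ⟨531, 6, 108⟩, T6_2434),
    (0, 0, ⟨531, 6, 108⟩, T6_2194), (0, 0, ⟨531, 6, 108⟩, T6_2338), (0, 0, ⟨531, 6, 108⟩, T6_2182) ]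

def j22 : allJ GA lf J22 = true := by decide +kernel

end Pool.Agent.Work.MP_bde882_al.J62
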