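import Pool.Agent.Work.MP_bde882_al_h62.JobDefs

/-!
Job module 23 (generated).
-/

set_option autoImplicit false
set_option maxRecDepth 100000
set_option linter.defProp false

namespace Pool.Agent.Work.MP_bde882_al.J62

open Pool.Agent.Work.MP_bde882_al.Pg62
open Pool.Agent.Work.MP_bde882_al.Tab
open Pool.Agent.Work.MP_bde882_al.H69

noncomputable def J23 : List (ℕ × ℕ × Hd × Op) :=
  [ (0, 0, ⟨546, 6, 114⟩, T6_2448), (0, 0, ⟨546, 6, 114⟩, T6_2436), (0, 0, ⟨546, 6, 114⟩, T6_2196),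
    (0, 0, ⟨546, 6, 114⟩, T6_2340), (0, 0, ⟨546, 6, 114⟩, T6_2376), (0, 0, ⟨546, 6, 114⟩, T6_2328),
    (0, 0, ⟨546, 6, 114⟩, T6_2433), (0, 0, ⟨546, 6, 114⟩, T6_2193), (0, 0, ⟨546, 6, 114⟩, T6_2337),
    (0, 0, ⟨546, 6, 114⟩, T6_2181), (0, 0, ⟨546, 6, 114⟩, T6_2313), (0, 0, ⟨546, 6, 114⟩, T6_2121),
    (0, 0, ⟨546, 6, 114⟩, T6_2370), (0, 0, ⟨546, 6, 114⟩, T6_2322) ]

def j23 : allJ GA lf J23 = true := by decide +kernel

end Pool.Agent.Work.MP_bde882_al.J62
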