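import Pool.Agent.Work.MP_bde882_al_h62.JobDefs

/-!
Job module 24 (generated).
-/

set_option autoImplicit false
set_option maxRecDepth 100000
set_option linter.defProp false

namespace Pool.Agent.Work.MP_bde882_al.J62

open Pool.Agent.Work.MP_bde882_al.Pg62
open Pool.Agent.Work.MP_bde882_al.Tab
open Pool.Agent.Work.MP_bde882_al.H69

noncomputable def J24 : List (ℕ × ℕ × Hd × Op) :=
  [ (0, 0, ⟨561, 6, 120⟩, T6_2384), (0, 0, ⟨561, 6, 120⟩, T6_2372), (0, 0, ⟨561, 6, 120⟩, T6_2324),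
    (0, 0, ⟨561, 6, 120⟩, T6_2132), (0, 0, ⟨561, 6, 120⟩, T6_2369), (0, 0, ⟨561, 6, 120⟩, T6_2321),
    (0, 0, ⟨561, 6, 120⟩, T6_2129), (0, 0, ⟨561, 6, 120⟩, T6_2309), (0, 0, ⟨561, 6, 120⟩, T6_2117),
    (0, 0, ⟨561, 6, 120⟩, T6_2069), (0, 0, ⟨576, 6, 126⟩, T6_1108), (0, 0, ⟨576, 6, 126⟩, T6_1105),
    (0, 0, ⟨771, 6, 150⟩, T6_2208), (0, 0, ⟨771, 6, 150⟩, T6_2184), (0, 0, ⟨771, 6, 150⟩, T6_2178),
    (0, 0, ⟨786, 6, 156⟩, T6_2432), (0, 0, ⟨786, 6, 156⟩, T6_2192), (0, 0, ⟨786, 6, 156⟩, T6_2336),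
    (0, 0, ⟨786, 6, 156⟩, T6_2180), (0, 0, ⟨786, 6, 156⟩, T6_2312), (0, 0, ⟨786, 6, 156⟩, T6_2120),
    (0, 0, ⟨786, 6, 156⟩, T6_2177), (0, 0, ⟨786, 6, 156⟩, T6_2057), (0, 0, ⟨786, 6, 156⟩, T6_2306),
    (0, 0, ⟨786, 6, 156⟩, T6_2114) ]

def j24 : allJ GA lf J24 = true := by decide +kernel

end Pool.Agent.Work.MP_bde882_al.J62
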