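import Pool.Agent.Work.MP_bde882_al_h62.JobDefs

/-!
Job module 25 (generated).
-/

set_option autoImplicit false
set_option maxRecDepth 100000
set_option linter.defProp false

namespace Pool.Agent.Work.MP_bde882_al.J62

open Pool.Agent.Work.MP_bde882_al.Pg62
open Pool.Agent.Work.MP_bde882_al.Tab
open Pool.Agent.Work.MP_bde882_al.H69

noncomputable def J25 : List (ℕ × ℕ × Hd × Op) :=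
  [ (0, 0, ⟨801, 6, 162⟩, T6_2368), (0, 0, ⟨801, 6, 162⟩, T6_2320), (0, 0, ⟨801, 6, 162⟩, T6_2128),
    (0, 0, ⟨801, 6, 162⟩, T6_2308), (0, 0, ⟨801, 6, 162⟩, T6_2116), (0, 0, ⟨801, 6, 162⟩, T6_2068),
    (0, 0, ⟨801, 6, 162⟩, T6_2305), (0, 0, ⟨801, 6, 162⟩, T6_2113), (0, 0, ⟨801, 6, 162⟩, T6_2065),
    (0, 0, ⟨801, 6, 162⟩, T6_2053), (0, 0, ⟨816, 6, 168⟩, T6_1104), (0, 0, ⟨816, 6, 168⟩, T6_1092),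
    (0, 0, ⟨816, 6, 168⟩, T6_1089), (0, 0, ⟨1026, 6, 198⟩, T6_2176), (0, 0, ⟨1026, 6, 198⟩, T6_2056),
    (0, 0, ⟨1041, 6, 204⟩, T6_2304), (0, 0, ⟨1041, 6, 204⟩, T6_2112),
    (0, 0, ⟨1041, 6, 204⟩, T6_2064), (0, 0, ⟨1041, 6, 204⟩, T6_2052),
    (0, 0, ⟨1041, 6, 204⟩, T6_2049), (0, 0, ⟨1056, 6, 210⟩, T6_1088),
    (0, 0, ⟨1056, 6, 210⟩, T6_1028), (0, 0, ⟨1281, 6, 246⟩, T6_2048),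
    (0, 0, ⟨1296, 6, 252⟩, T6_1024), (0, 0, ⟨22, 7, 13⟩, T7_9898), (0, 0, ⟨37, 7, 19⟩, T7_9897),
    (0, 0, ⟨37, 7, 19⟩, T7_9894), (0, 0, ⟨37, 7, 19⟩, T7_9882), (0, 0, ⟨52, 7, 25⟩, T7_9893),
    (0, 0, ⟨52, 7, 25⟩, T7_9881), (0, 0, ⟨52, 7, 25⟩, T7_9878), (0, 0, ⟨52, 7, 25⟩, T7_9830),
    (0, 0, ⟨52, 7, 25⟩, T7_9818), (0, 0, ⟨67, 7, 31⟩, T7_9877), (0, 0, ⟨67, 7, 31⟩, T7_9829),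
    (0, 0, ⟨67, 7, 31⟩, T7_9817), (0, 0, ⟨67, 7, 31⟩, T7_9814), (0, 0, ⟨67, 7, 31⟩, T7_9574),
    (0, 0, ⟨82, 7, 37⟩, T7_9813), (0, 0, ⟨82, 7, 37⟩, T7_9573), (0, 0, ⟨82, 7, 37⟩, T7_9558),
    (0, 0, ⟨97, 7, 43⟩, T7_9557), (0, 0, ⟨262, 7, 55⟩, T7_8874), (0, 0, ⟨277, 7, 61⟩, T7_9896),
    (0, 0, ⟨277, 7, 61⟩, T7_8873), (0, 0, ⟨277, 7, 61⟩, T7_9890), (0, 0, ⟨277, 7, 61⟩, T7_8870),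
    (0, 0, ⟨277, 7, 61⟩, T7_9866), (0, 0, ⟨277, 7, 61⟩, T7_8858), (0, 0, ⟨292, 7, 67⟩, T7_9892),
    (0, 0, ⟨292, 7, 67⟩, T7_9880), (0, 0, ⟨292, 7, 67⟩, T7_9889), (0, 0, ⟨292, 7, 67⟩, T7_8869),
    (0, 0, ⟨292, 7, 67⟩, T7_9865), (0, 0, ⟨292, 7, 67⟩, T7_8857), (0, 0, ⟨292, 7, 67⟩, T7_9769),
    (0, 0, ⟨292, 7, 67⟩, T7_9874), (0, 0, ⟨292, 7, 67⟩, T7_9826), (0, 0, ⟨292, 7, 67⟩, T7_9862),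
    (0, 0, ⟨292, 7, 67⟩, T7_8854), (0, 0, ⟨292, 7, 67⟩, T7_9766), (0, 0, ⟨292, 7, 67⟩, T7_8806),
    (0, 0, ⟨292, 7, 67⟩, T7_9802), (0, 0, ⟨292, 7, 67⟩, T7_9754), (0, 0, ⟨307, 7, 73⟩, T7_9876),
    (0, 0, ⟨307, 7, 73⟩, T7_9828), (0, 0, ⟨307, 7, 73⟩, T7_9816), (0, 0, ⟨307, 7, 73⟩, T7_9873),
    (0, 0, ⟨307, 7, 73⟩, T7_9825), (0, 0, ⟨307, 7, 73⟩, T7_9861), (0, 0, ⟨307, 7, 73⟩, T7_8853),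
    (0, 0, ⟨307, 7, 73⟩, T7_9765), (0, 0, ⟨307, 7, 73⟩, T7_8805), (0, 0, ⟨307, 7, 73⟩, T7_9801),
    (0, 0, ⟨307, 7, 73⟩, T7_9753), (0, 0, ⟨307, 7, 73⟩, T7_8793), (0, 0, ⟨307, 7, 73⟩, T7_9369),
    (0, 0, ⟨307, 7, 73⟩, T7_9810), (0, 0, ⟨307, 7, 73⟩, T7_9570), (0, 0, ⟨307, 7, 73⟩, T7_9798),
    (0, 0, ⟨307, 7, 73⟩, T7_9750), (0, 0, ⟨307, 7, 73⟩, T7_8790), (0, 0, ⟨307, 7, 73⟩, T7_9366),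
    (0, 0, ⟨307, 7, 73⟩, T7_9318), (0, 0, ⟨322, 7, 79⟩, T7_9812), (0, 0, ⟨322, 7, 79⟩, T7_9572),
    (0, 0, ⟨322, 7, 79⟩, T7_9809), (0, 0, ⟨322, 7, 79⟩, T7_9569), (0, 0, ⟨322, 7, 79⟩, T7_9797),
    (0, 0, ⟨322, 7, 79⟩, T7_9749), (0, 0, ⟨322, 7, 79⟩, T7_8789), (0, 0, ⟨322, 7, 79⟩, T7_9365),
    (0, 0, ⟨322, 7, 79⟩, T7_9509), (0, 0, ⟨322, 7, 79⟩, T7_9317), (0, 0, ⟨322, 7, 79⟩, T7_9545),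
    (0, 0, ⟨322, 7, 79⟩, T7_9497), (0, 0, ⟨322, 7, 79⟩, T7_9554), (0, 0, ⟨322, 7, 79⟩, T7_9542),
    (0, 0, ⟨322, 7, 79⟩, T7_9494) ]

def j25 : allJ GA lf J25 = true := by decide +kernel

end Pool.Agent.Work.MP_bde882_al.J62
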