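import Pool.Agent.Work.MP_bde882_al_h62.JobDefs

/-!
Job module 26 (generated).
-/

set_option autoImplicit false
set_option maxRecDepth 100000
set_option linter.defProp false

namespace Pool.Agent.Work.MP_bde882_al.J62

open Pool.Agent.Work.MP_bde882_al.Pg62
open Pool.Agent.Work.MP_bde882_al.Tab
open Pool.Agent.Work.MP_bde882_al.H69

noncomputable def J26 : List (ℕ × ℕ × Hd × Op) :=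
  [ (0, 0, ⟨337, 7, 85⟩, T7_9556), (0, 0, ⟨337, 7, 85⟩, T7_9553), (0, 0, ⟨337, 7, 85⟩, T7_9541),
    (0, 0, ⟨337, 7, 85⟩, T7_9493), (0, 0, ⟨337, 7, 85⟩, T7_9301), (0, 0, ⟨337, 7, 85⟩, T7_8533),
    (0, 0, ⟨352, 7, 91⟩, T7_4437), (0, 0, ⟨517, 7, 103⟩, T7_8872), (0, 0, ⟨517, 7, 103⟩, T7_8866),
    (0, 0, ⟨517, 7, 103⟩, T7_8842), (0, 0, ⟨532, 7, 109⟩, T7_9888), (0, 0, ⟨532, 7, 109⟩, T7_8868),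
    (0, 0, ⟨532, 7, 109⟩, T7_9864), (0, 0, ⟨532, 7, 109⟩, T7_8856), (0, 0, ⟨532, 7, 109⟩, T7_9768),
    (0, 0, ⟨532, 7, 109⟩, T7_8865), (0, 0, ⟨532, 7, 109⟩, T7_8841), (0, 0, ⟨532, 7, 109⟩, T7_9858),
    (0, 0, ⟨532, 7, 109⟩, T7_8850), (0, 0, ⟨532, 7, 109⟩, T7_9762), (0, 0, ⟨532, 7, 109⟩, T7_8802),
    (0, 0, ⟨532, 7, 109⟩, T7_8838), (0, 0, ⟨532, 7, 109⟩, T7_8742), (0, 0, ⟨532, 7, 109⟩, T7_9738),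
    (0, 0, ⟨532, 7, 109⟩, T7_8778), (0, 0, ⟨547, 7, 115⟩, T7_9872), (0, 0, ⟨547, 7, 115⟩, T7_9824),
    (0, 0, ⟨547, 7, 115⟩, T7_9860), (0, 0, ⟨547, 7, 115⟩, T7_8852), (0, 0, ⟨547, 7, 115⟩, T7_9764),
    (0, 0, ⟨547, 7, 115⟩, T7_8804), (0, 0, ⟨547, 7, 115⟩, T7_9800), (0, 0, ⟨547, 7, 115⟩, T7_9752),
    (0, 0, ⟨547, 7, 115⟩, T7_8792), (0, 0, ⟨547, 7, 115⟩, T7_9368), (0, 0, ⟨547, 7, 115⟩, T7_9857),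
    (0, 0, ⟨547, 7, 115⟩, T7_8849), (0, 0, ⟨547, 7, 115⟩, T7_9761), (0, 0, ⟨547, 7, 115⟩, T7_8801),
    (0, 0, ⟨547, 7, 115⟩, T7_8837), (0, 0, ⟨547, 7, 115⟩, T7_8741), (0, 0, ⟨547, 7, 115⟩, T7_9737),
    (0, 0, ⟨547, 7, 115⟩, T7_8777), (0, 0, ⟨547, 7, 115⟩, T7_9353), (0, 0, ⟨547, 7, 115⟩, T7_8729),
    (0, 0, ⟨547, 7, 115⟩, T7_9794), (0, 0, ⟨547, 7, 115⟩, T7_9746), (0, 0, ⟨547, 7, 115⟩, T7_8786),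
    (0, 0, ⟨547, 7, 115⟩, T7_9362), (0, 0, ⟨547, 7, 115⟩, T7_9506), (0, 0, ⟨547, 7, 115⟩, T7_9314),
    (0, 0, ⟨547, 7, 115⟩, T7_9734), (0, 0, ⟨547, 7, 115⟩, T7_8774), (0, 0, ⟨547, 7, 115⟩, T7_9350),
    (0, 0, ⟨547, 7, 115⟩, T7_8726), (0, 0, ⟨562, 7, 121⟩, T7_9808), (0, 0, ⟨562, 7, 121⟩, T7_9568),
    (0, 0, ⟨562, 7, 121⟩, T7_9796), (0, 0, ⟨562, 7, 121⟩, T7_9748), (0, 0, ⟨562, 7, 121⟩, T7_8788),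
    (0, 0, ⟨562, 7, 121⟩, T7_9364), (0, 0, ⟨562, 7, 121⟩, T7_9508), (0, 0, ⟨562, 7, 121⟩, T7_9316),
    (0, 0, ⟨562, 7, 121⟩, T7_9544), (0, 0, ⟨562, 7, 121⟩, T7_9496), (0, 0, ⟨562, 7, 121⟩, T7_9793),
    (0, 0, ⟨562, 7, 121⟩, T7_9745), (0, 0, ⟨562, 7, 121⟩, T7_8785), (0, 0, ⟨562, 7, 121⟩, T7_9361),
    (0, 0, ⟨562, 7, 121⟩, T7_9505), (0, 0, ⟨562, 7, 121⟩, T7_9313), (0, 0, ⟨562, 7, 121⟩, T7_9733),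
    (0, 0, ⟨562, 7, 121⟩, T7_8773), (0, 0, ⟨562, 7, 121⟩, T7_9349), (0, 0, ⟨562, 7, 121⟩, T7_8725),
    (0, 0, ⟨562, 7, 121⟩, T7_9253), (0, 0, ⟨562, 7, 121⟩, T7_8485), (0, 0, ⟨562, 7, 121⟩, T7_9481),
    (0, 0, ⟨562, 7, 121⟩, T7_9289), (0, 0, ⟨562, 7, 121⟩, T7_9538), (0, 0, ⟨562, 7, 121⟩, T7_9490),
    (0, 0, ⟨562, 7, 121⟩, T7_9298), (0, 0, ⟨562, 7, 121⟩, T7_8530), (0, 0, ⟨562, 7, 121⟩, T7_9478),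
    (0, 0, ⟨562, 7, 121⟩, T7_9286), (0, 0, ⟨577, 7, 127⟩, T7_9552), (0, 0, ⟨577, 7, 127⟩, T7_9540),
    (0, 0, ⟨577, 7, 127⟩, T7_9492), (0, 0, ⟨577, 7, 127⟩, T7_9300), (0, 0, ⟨577, 7, 127⟩, T7_8532),
    (0, 0, ⟨577, 7, 127⟩, T7_9537), (0, 0, ⟨577, 7, 127⟩, T7_9489), (0, 0, ⟨577, 7, 127⟩, T7_9297),
    (0, 0, ⟨577, 7, 127⟩, T7_8529), (0, 0, ⟨577, 7, 127⟩, T7_9477), (0, 0, ⟨577, 7, 127⟩, T7_9285),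
    (0, 0, ⟨577, 7, 127⟩, T7_8517), (0, 0, ⟨577, 7, 127⟩, T7_9237), (0, 0, ⟨577, 7, 127⟩, T7_8469),
    (0, 0, ⟨577, 7, 127⟩, T7_8277), (0, 0, ⟨592, 7, 133⟩, T7_4436), (0, 0, ⟨592, 7, 133⟩, T7_4433),
    (0, 0, ⟨592, 7, 133⟩, T7_4421), (0, 0, ⟨772, 7, 151⟩, T7_8864), (0, 0, ⟨772, 7, 151⟩, T7_8840),
    (0, 0, ⟨772, 7, 151⟩, T7_8834), (0, 0, ⟨772, 7, 151⟩, T7_8738), (0, 0, ⟨772, 7, 151⟩, T7_8714),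
    (0, 0, ⟨787, 7, 157⟩, T7_9856), (0, 0, ⟨787, 7, 157⟩, T7_8848), (0, 0, ⟨787, 7, 157⟩, T7_9760),
    (0, 0, ⟨787, 7, 157⟩, T7_8800), (0, 0, ⟨787, 7, 157⟩, T7_8836), (0, 0, ⟨787, 7, 157⟩, T7_8740),
    (0, 0, ⟨787, 7, 157⟩, T7_9736), (0, 0, ⟨787, 7, 157⟩, T7_8776), (0, 0, ⟨787, 7, 157⟩, T7_9352),
    (0, 0, ⟨787, 7, 157⟩, T7_8728), (0, 0, ⟨787, 7, 157⟩, T7_8833), (0, 0, ⟨787, 7, 157⟩, T7_8737),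
    (0, 0, ⟨787, 7, 157⟩, T7_8713), (0, 0, ⟨787, 7, 157⟩, T7_9730), (0, 0, ⟨787, 7, 157⟩, T7_8770),
    (0, 0, ⟨787, 7, 157⟩, T7_9346), (0, 0, ⟨787, 7, 157⟩, T7_8722), (0, 0, ⟨787, 7, 157⟩, T7_9250),
    (0, 0, ⟨787, 7, 157⟩, T7_8482), (0, 0, ⟨787, 7, 157⟩, T7_8710), (0, 0, ⟨802, 7, 163⟩, T7_9792),
    (0, 0, ⟨802, 7, 163⟩, T7_9744), (0, 0, ⟨802, 7, 163⟩, T7_8784), (0, 0, ⟨802, 7, 163⟩, T7_9360),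
    (0, 0, ⟨802, 7, 163⟩, T7_9504), (0, 0, ⟨802, 7, 163⟩, T7_9312), (0, 0, ⟨802, 7, 163⟩, T7_9732),
    (0, 0, ⟨802, 7, 163⟩, T7_8772), (0, 0, ⟨802, 7, 163⟩, T7_9348), (0, 0, ⟨802, 7, 163⟩, T7_8724),
    (0, 0, ⟨802, 7, 163⟩, T7_9252), (0, 0, ⟨802, 7, 163⟩, T7_8484), (0, 0, ⟨802, 7, 163⟩, T7_9480),
    (0, 0, ⟨802, 7, 163⟩, T7_9288), (0, 0, ⟨802, 7, 163⟩, T7_9729), (0, 0, ⟨802, 7, 163⟩, T7_8769),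
    (0, 0, ⟨802, 7, 163⟩, T7_9345), (0, 0, ⟨802, 7, 163⟩, T7_8721), (0, 0, ⟨802, 7, 163⟩, T7_9249),
    (0, 0, ⟨802, 7, 163⟩, T7_8481), (0, 0, ⟨802, 7, 163⟩, T7_8709), (0, 0, ⟨802, 7, 163⟩, T7_8229),
    (0, 0, ⟨802, 7, 163⟩, T7_9225), (0, 0, ⟨802, 7, 163⟩, T7_8457), (0, 0, ⟨802, 7, 163⟩, T7_9474),
    (0, 0, ⟨802, 7, 163⟩, T7_9282), (0, 0, ⟨802, 7, 163⟩, T7_8514), (0, 0, ⟨802, 7, 163⟩, T7_9234),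
    (0, 0, ⟨802, 7, 163⟩, T7_8466), (0, 0, ⟨802, 7, 163⟩, T7_9222), (0, 0, ⟨817, 7, 169⟩, T7_9536),
    (0, 0, ⟨817, 7, 169⟩, T7_9488), (0, 0, ⟨817, 7, 169⟩, T7_9296), (0, 0, ⟨817, 7, 169⟩, T7_8528),
    (0, 0, ⟨817, 7, 169⟩, T7_9476), (0, 0, ⟨817, 7, 169⟩, T7_9284), (0, 0, ⟨817, 7, 169⟩, T7_8516),
    (0, 0, ⟨817, 7, 169⟩, T7_9236), (0, 0, ⟨817, 7, 169⟩, T7_8468), (0, 0, ⟨817, 7, 169⟩, T7_8276),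
    (0, 0, ⟨817, 7, 169⟩, T7_9473), (0, 0, ⟨817, 7, 169⟩, T7_9281), (0, 0, ⟨817, 7, 169⟩, T7_8513),
    (0, 0, ⟨817, 7, 169⟩, T7_9233), (0, 0, ⟨817, 7, 169⟩, T7_8465), (0, 0, ⟨817, 7, 169⟩, T7_8273),
    (0, 0, ⟨817, 7, 169⟩, T7_9221), (0, 0, ⟨817, 7, 169⟩, T7_8453), (0, 0, ⟨817, 7, 169⟩, T7_8261),
    (0, 0, ⟨817, 7, 169⟩, T7_8213), (0, 0, ⟨832, 7, 175⟩, T7_4432), (0, 0, ⟨832, 7, 175⟩, T7_4420),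
    (0, 0, ⟨832, 7, 175⟩, T7_4417), (0, 0, ⟨832, 7, 175⟩, T7_4369), (0, 0, ⟨832, 7, 175⟩, T7_4357),
    (0, 0, ⟨1027, 7, 199⟩, T7_8832), (0, 0, ⟨1027, 7, 199⟩, T7_8736),
    (0, 0, ⟨1027, 7, 199⟩, T7_8712), (0, 0, ⟨1027, 7, 199⟩, T7_8706),
    (0, 0, ⟨1027, 7, 199⟩, T7_8226), (0, 0, ⟨1042, 7, 205⟩, T7_9728),
    (0, 0, ⟨1042, 7, 205⟩, T7_8768), (0, 0, ⟨1042, 7, 205⟩, T7_9344),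
    (0, 0, ⟨1042, 7, 205⟩, T7_8720), (0, 0, ⟨1042, 7, 205⟩, T7_9248),
    (0, 0, ⟨1042, 7, 205⟩, T7_8480), (0, 0, ⟨1042, 7, 205⟩, T7_8708),
    (0, 0, ⟨1042, 7, 205⟩, T7_8228), (0, 0, ⟨1042, 7, 205⟩, T7_9224),
    (0, 0, ⟨1042, 7, 205⟩, T7_8456), (0, 0, ⟨1042, 7, 205⟩, T7_8705),
    (0, 0, ⟨1042, 7, 205⟩, T7_8225), (0, 0, ⟨1042, 7, 205⟩, T7_9218),
    (0, 0, ⟨1042, 7, 205⟩, T7_8450), (0, 0, ⟨1042, 7, 205⟩, T7_8258),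
    (0, 0, ⟨1057, 7, 211⟩, T7_9472), (0, 0, ⟨1057, 7, 211⟩, T7_9280),
    (0, 0, ⟨1057, 7, 211⟩, T7_8512), (0, 0, ⟨1057, 7, 211⟩, T7_9232),
    (0, 0, ⟨1057, 7, 211⟩, T7_8464), (0, 0, ⟨1057, 7, 211⟩, T7_8272),
    (0, 0, ⟨1057, 7, 211⟩, T7_9220), (0, 0, ⟨1057, 7, 211⟩, T7_8452),
    (0, 0, ⟨1057, 7, 211⟩, T7_8260), (0, 0, ⟨1057, 7, 211⟩, T7_8212),
    (0, 0, ⟨1057, 7, 211⟩, T7_9217), (0, 0, ⟨1057, 7, 211⟩, T7_8449),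
    (0, 0, ⟨1057, 7, 211⟩, T7_8257), (0, 0, ⟨1057, 7, 211⟩, T7_8209),
    (0, 0, ⟨1057, 7, 211⟩, T7_8197), (0, 0, ⟨1072, 7, 217⟩, T7_4416),
    (0, 0, ⟨1072, 7, 217⟩, T7_4368), (0, 0, ⟨1072, 7, 217⟩, T7_4356),
    (0, 0, ⟨1072, 7, 217⟩, T7_4353), (0, 0, ⟨1072, 7, 217⟩, T7_4113),
    (0, 0, ⟨1282, 7, 247⟩, T7_8704), (0, 0, ⟨1282, 7, 247⟩, T7_8224),
    (0, 0, ⟨1282, 7, 247⟩, T7_8194), (0, 0, ⟨1297, 7, 253⟩, T7_9216),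
    (0, 0, ⟨1297, 7, 253⟩, T7_8448), (0, 0, ⟨1297, 7, 253⟩, T7_8256),
    (0, 0, ⟨1297, 7, 253⟩, T7_8208), (0, 0, ⟨1297, 7, 253⟩, T7_8196),
    (0, 0, ⟨1297, 7, 253⟩, T7_8193), (0, 0, ⟨1312, 7, 259⟩, T7_4352),
    (0, 0, ⟨1312, 7, 259⟩, T7_4112), (0, 0, ⟨1312, 7, 259⟩, T7_4097),
    (0, 0, ⟨1537, 7, 295⟩, T7_8192), (0, 0, ⟨1552, 7, 301⟩, T7_4096), (1, 0, ⟨256, 1, 49⟩, T1_0),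
    (1, 0, ⟨17, 2, 8⟩, T2_9), (1, 0, ⟨18, 3, 9⟩, T3_38), (1, 0, ⟨33, 3, 15⟩, T3_37),
    (1, 0, ⟨258, 3, 51⟩, T3_34), (1, 0, ⟨273, 3, 57⟩, T3_36), (1, 0, ⟨273, 3, 57⟩, T3_33),
    (1, 0, ⟨288, 3, 63⟩, T3_17), (1, 0, ⟨513, 3, 99⟩, T3_32), (1, 0, ⟨528, 3, 105⟩, T3_16),
    (1, 0, ⟨19, 4, 10⟩, T4_154), (1, 0, ⟨34, 4, 16⟩, T4_153) ]

def j26 : allJ GA lf J26 = true := by decide +kernel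

end Pool.Agent.Work.MP_bde882_al.J62
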