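import Pool.Agent.Work.MP_bde882_al_h62.JobDefs

/-!
Job module 30 (generated).
-/

set_option autoImplicit false
set_option maxRecDepth 100000
set_option linter.defProp false

namespace Pool.Agent.Work.MP_bde882_al.J62

open Pool.Agent.Work.MP_bde882_al.Pg62
open Pool.Agent.Work.MP_bde882_al.Tab
open Pool.Agent.Work.MP_bde882_al.H69

noncomputable def J30 : List (ℕ × ℕ × Hd × Op) :=
  [ (1, 0, ⟨305, 5, 71⟩, T5_596), (1, 0, ⟨305, 5, 71⟩, T5_593), (1, 0, ⟨305, 5, 71⟩, T5_581),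
    (1, 0, ⟨305, 5, 71⟩, T5_533), (1, 0, ⟨320, 5, 77⟩, T5_277), (1, 0, ⟨515, 5, 101⟩, T5_552),
    (1, 0, ⟨515, 5, 101⟩, T5_546), (1, 0, ⟨530, 5, 107⟩, T5_608), (1, 0, ⟨530, 5, 107⟩, T5_548),
    (1, 0, ⟨530, 5, 107⟩, T5_584), (1, 0, ⟨530, 5, 107⟩, T5_545), (1, 0, ⟨530, 5, 107⟩, T5_578),
    (1, 0, ⟨530, 5, 107⟩, T5_530) ]

def j30 : allJ GA lf J30 = true := by decide +kernel

end Pool.Agent.Work.MP_bde882_al.J62
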