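import Pool.Agent.Work.MP_bde882_al_h62.JobDefs

/-!
Job module 31 (generated).
-/

set_option autoImplicit false
set_option maxRecDepth 100000
set_option linter.defProp false

namespace Pool.Agent.Work.MP_bde882_al.J62

open Pool.Agent.Work.MP_bde882_al.Pg62
open Pool.Agent.Work.MP_bde882_al.Tab
open Pool.Agent.Work.MP_bde882_al.H69

noncomputable def J31 : List (ℕ × ℕ × Hd × Op) :=
  [ (1, 0, ⟨545, 5, 113⟩, T5_592), (1, 0, ⟨545, 5, 113⟩, T5_580), (1, 0, ⟨545, 5, 113⟩, T5_532),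
    (1, 0, ⟨545, 5, 113⟩, T5_577), (1, 0, ⟨545, 5, 113⟩, T5_529), (1, 0, ⟨545, 5, 113⟩, T5_517),
    (1, 0, ⟨560, 5, 119⟩, T5_276), (1, 0, ⟨560, 5, 119⟩, T5_273), (1, 0, ⟨770, 5, 149⟩, T5_544),
    (1, 0, ⟨770, 5, 149⟩, T5_514), (1, 0, ⟨785, 5, 155⟩, T5_576), (1, 0, ⟨785, 5, 155⟩, T5_528),
    (1, 0, ⟨785, 5, 155⟩, T5_516), (1, 0, ⟨785, 5, 155⟩, T5_513), (1, 0, ⟨800, 5, 161⟩, T5_272),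
    (1, 0, ⟨800, 5, 161⟩, T5_257), (1, 0, ⟨1025, 5, 197⟩, T5_512), (1, 0, ⟨1040, 5, 203⟩, T5_256),
    (1, 0, ⟨21, 6, 12⟩, T6_2474), (1, 0, ⟨36, 6, 18⟩, T6_2473), (1, 0, ⟨36, 6, 18⟩, T6_2470),
    (1, 0, ⟨51, 6, 24⟩, T6_2469), (1, 0, ⟨51, 6, 24⟩, T6_2457), (1, 0, ⟨51, 6, 24⟩, T6_2454),
    (1, 0, ⟨66, 6, 30⟩, T6_2453), (1, 0, ⟨66, 6, 30⟩, T6_2393), (1, 0, ⟨81, 6, 36⟩, T6_2389),
    (1, 0, ⟨261, 6, 54⟩, T6_2218), (1, 0, ⟨276, 6, 60⟩, T6_2472), (1, 0, ⟨276, 6, 60⟩, T6_2217),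
    (1, 0, ⟨276, 6, 60⟩, T6_2466), (1, 0, ⟨276, 6, 60⟩, T6_2214), (1, 0, ⟨276, 6, 60⟩, T6_2442),
    (1, 0, ⟨291, 6, 66⟩, T6_2468), (1, 0, ⟨291, 6, 66⟩, T6_2456), (1, 0, ⟨291, 6, 66⟩, T6_2465),
    (1, 0, ⟨291, 6, 66⟩, T6_2213), (1, 0, ⟨291, 6, 66⟩, T6_2441), (1, 0, ⟨291, 6, 66⟩, T6_2201),
    (1, 0, ⟨291, 6, 66⟩, T6_2450), (1, 0, ⟨291, 6, 66⟩, T6_2438), (1, 0, ⟨291, 6, 66⟩, T6_2198),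
    (1, 0, ⟨291, 6, 66⟩, T6_2342) ]

def j31 : allJ GA lf J31 = true := by decide +kernel

end Pool.Agent.Work.MP_bde882_al.J62
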