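import Pool.Agent.Work.MP_bde882_al_h62.JobDefs

/-!
Job module 33 (generated).
-/

set_option autoImplicit false
set_option maxRecDepth 100000
set_option linter.defProp false

namespace Pool.Agent.Work.MP_bde882_al.J62

open Pool.Agent.Work.MP_bde882_al.Pg62
open Pool.Agent.Work.MP_bde882_al.Tab
open Pool.Agent.Work.MP_bde882_al.H69

noncomputable def J33 : List (ℕ × ℕ × Hd × Op) :=
  [ (7, 0, ⟨259, 4, 52⟩, T4_138), (7, 0, ⟨274, 4, 58⟩, T4_152), (7, 0, ⟨274, 4, 58⟩, T4_137),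
    (7, 0, ⟨274, 4, 58⟩, T4_146), (7, 0, ⟨289, 4, 64⟩, T4_148), (7, 0, ⟨289, 4, 64⟩, T4_145),
    (7, 0, ⟨289, 4, 64⟩, T4_133), (7, 0, ⟨304, 4, 70⟩, T4_69), (7, 0, ⟨514, 4, 100⟩, T4_136) ]

def j33 : allJ GA lf J33 = true := by decide +kernel

end Pool.Agent.Work.MP_bde882_al.J62
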