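import Pool.Agent.Work.MP_bde882_al_h62.JobDefs

/-!
Job module 34 (generated).
-/

set_option autoImplicit false
set_option maxRecDepth 100000
set_option linter.defProp false

namespace Pool.Agent.Work.MP_bde882_al.J62

open Pool.Agent.Work.MP_bde882_al.Pg62
open Pool.Agent.Work.MP_bde882_al.Tab
open Pool.Agent.Work.MP_bde882_al.H69

noncomputable def J34 : List (ℕ × ℕ × Hd × Op) :=
  [ (7, 0, ⟨529, 4, 106⟩, T4_144), (7, 0, ⟨529, 4, 106⟩, T4_132), (7, 0, ⟨529, 4, 106⟩, T4_129),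
    (7, 0, ⟨544, 4, 112⟩, T4_68), (7, 0, ⟨769, 4, 148⟩, T4_128), (7, 0, ⟨784, 4, 154⟩, T4_64),
    (7, 0, ⟨20, 5, 11⟩, T5_618) ]

def j34 : allJ GA lf J34 = true := by decide +kernel

end Pool.Agent.Work.MP_bde882_al.J62
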