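import Pool.Agent.Work.MP_bde882_al_h62.JobDefs

/-!
Job module 35 (generated).
-/

set_option autoImplicit false
set_option maxRecDepth 100000
set_option linter.defProp false

namespace Pool.Agent.Work.MP_bde882_al.J62

open Pool.Agent.Work.MP_bde882_al.Pg62
open Pool.Agent.Work.MP_bde882_al.Tab
open Pool.Agent.Work.MP_bde882_al.H69

noncomputable def J35 : List (ℕ × ℕ × Hd × Op) :=
  [ (7, 0, ⟨35, 5, 17⟩, T5_617), (7, 0, ⟨35, 5, 17⟩, T5_614), (7, 0, ⟨50, 5, 23⟩, T5_613),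
    (7, 0, ⟨50, 5, 23⟩, T5_598), (7, 0, ⟨65, 5, 29⟩, T5_597), (7, 0, ⟨260, 5, 53⟩, T5_554),
    (7, 0, ⟨275, 5, 59⟩, T5_616), (7, 0, ⟨275, 5, 59⟩, T5_553), (7, 0, ⟨275, 5, 59⟩, T5_610),
    (7, 0, ⟨275, 5, 59⟩, T5_550), (7, 0, ⟨290, 5, 65⟩, T5_612), (7, 0, ⟨290, 5, 65⟩, T5_609),
    (7, 0, ⟨290, 5, 65⟩, T5_549), (7, 0, ⟨290, 5, 65⟩, T5_585), (7, 0, ⟨290, 5, 65⟩, T5_594),
    (7, 0, ⟨290, 5, 65⟩, T5_582) ]

def j35 : allJ GA lf J35 = true := by decide +kernel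

end Pool.Agent.Work.MP_bde882_al.J62
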