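import Pool.Agent.Work.MP_bde882_al_h62.JobDefs

/-!
Job module 36 (generated).
-/

set_option autoImplicit false
set_option maxRecDepth 100000
set_option linter.defProp false

namespace Pool.Agent.Work.MP_bde882_al.J62

open Pool.Agent.Work.MP_bde882_al.Pg62
open Pool.Agent.Work.MP_bde882_al.Tab
open Pool.Agent.Work.MP_bde882_al.H69

noncomputable def J36 : List (ℕ × ℕ × Hd × Op) :=
  [ (7, 0, ⟨305, 5, 71⟩, T5_596), (7, 0, ⟨305, 5, 71⟩, T5_593), (7, 0, ⟨305, 5, 71⟩, T5_581),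
    (7, 0, ⟨305, 5, 71⟩, T5_533), (7, 0, ⟨320, 5, 77⟩, T5_277), (7, 0, ⟨515, 5, 101⟩, T5_552),
    (7, 0, ⟨515, 5, 101⟩, T5_546), (7, 0, ⟨530, 5, 107⟩, T5_608), (7, 0, ⟨530, 5, 107⟩, T5_548),
    (7, 0, ⟨530, 5, 107⟩, T5_584), (7, 0, ⟨530, 5, 107⟩, T5_545), (7, 0, ⟨530, 5, 107⟩, T5_578),
    (7, 0, ⟨530, 5, 107⟩, T5_530), (7, 0, ⟨545, 5, 113⟩, T5_592), (7, 0, ⟨545, 5, 113⟩, T5_580),
    (7, 0, ⟨545, 5, 113⟩, T5_532), (7, 0, ⟨545, 5, 113⟩, T5_577), (7, 0, ⟨545, 5, 113⟩, T5_529),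
    (7, 0, ⟨545, 5, 113⟩, T5_517), (7, 0, ⟨560, 5, 119⟩, T5_276), (7, 0, ⟨560, 5, 119⟩, T5_273) ]

def j36 : allJ GA lf J36 = true := by decide +kernel

end Pool.Agent.Work.MP_bde882_al.J62
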