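import Pool.Agent.Work.MP_bde882_al_h62.JobDefs

/-!
Job module 37 (generated).
-/

set_option autoImplicit false
set_option maxRecDepth 100000
set_option linter.defProp false

namespace Pool.Agent.Work.MP_bde882_al.J62

open Pool.Agent.Work.MP_bde882_al.Pg62
open Pool.Agent.Work.MP_bde882_al.Tab
open Pool.Agent.Work.MP_bde882_al.H69

noncomputable def J37 : List (ℕ × ℕ × Hd × Op) :=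
  [ (7, 0, ⟨770, 5, 149⟩, T5_544), (7, 0, ⟨770, 5, 149⟩, T5_514), (7, 0, ⟨785, 5, 155⟩, T5_576),
    (7, 0, ⟨785, 5, 155⟩, T5_528), (7, 0, ⟨785, 5, 155⟩, T5_516), (7, 0, ⟨785, 5, 155⟩, T5_513),
    (7, 0, ⟨800, 5, 161⟩, T5_272), (7, 0, ⟨800, 5, 161⟩, T5_257), (7, 0, ⟨1025, 5, 197⟩, T5_512),
    (7, 0, ⟨1040, 5, 203⟩, T5_256), (7, 0, ⟨21, 6, 12⟩, T6_2474), (7, 0, ⟨36, 6, 18⟩, T6_2473),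
    (7, 0, ⟨36, 6, 18⟩, T6_2470), (7, 0, ⟨51, 6, 24⟩, T6_2469), (7, 0, ⟨51, 6, 24⟩, T6_2457),
    (7, 0, ⟨51, 6, 24⟩, T6_2454), (7, 0, ⟨66, 6, 30⟩, T6_2453), (7, 0, ⟨66, 6, 30⟩, T6_2393),
    (7, 0, ⟨81, 6, 36⟩, T6_2389), (7, 0, ⟨261, 6, 54⟩, T6_2218), (7, 0, ⟨276, 6, 60⟩, T6_2472),
    (7, 0, ⟨276, 6, 60⟩, T6_2217), (7, 0, ⟨276, 6, 60⟩, T6_2466), (7, 0, ⟨276, 6, 60⟩, T6_2214),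
    (7, 0, ⟨276, 6, 60⟩, T6_2442), (7, 0, ⟨291, 6, 66⟩, T6_2468), (7, 0, ⟨291, 6, 66⟩, T6_2456),
    (7, 0, ⟨291, 6, 66⟩, T6_2465), (7, 0, ⟨291, 6, 66⟩, T6_2213), (7, 0, ⟨291, 6, 66⟩, T6_2441),
    (7, 0, ⟨291, 6, 66⟩, T6_2201), (7, 0, ⟨291, 6, 66⟩, T6_2450), (7, 0, ⟨291, 6, 66⟩, T6_2438),
    (7, 0, ⟨291, 6, 66⟩, T6_2198), (7, 0, ⟨291, 6, 66⟩, T6_2342), (7, 0, ⟨306, 6, 72⟩, T6_2452),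
    (7, 0, ⟨306, 6, 72⟩, T6_2392), (7, 0, ⟨306, 6, 72⟩, T6_2449), (7, 0, ⟨306, 6, 72⟩, T6_2437),
    (7, 0, ⟨306, 6, 72⟩, T6_2197), (7, 0, ⟨306, 6, 72⟩, T6_2341), (7, 0, ⟨306, 6, 72⟩, T6_2377),
    (7, 0, ⟨306, 6, 72⟩, T6_2329), (7, 0, ⟨306, 6, 72⟩, T6_2386), (7, 0, ⟨306, 6, 72⟩, T6_2374),
    (7, 0, ⟨321, 6, 78⟩, T6_2388), (7, 0, ⟨321, 6, 78⟩, T6_2385), (7, 0, ⟨321, 6, 78⟩, T6_2373),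
    (7, 0, ⟨321, 6, 78⟩, T6_2325), (7, 0, ⟨321, 6, 78⟩, T6_2133), (7, 0, ⟨336, 6, 84⟩, T6_1109),
    (7, 0, ⟨516, 6, 102⟩, T6_2216), (7, 0, ⟨516, 6, 102⟩, T6_2210), (7, 0, ⟨531, 6, 108⟩, T6_2464),
    (7, 0, ⟨531, 6, 108⟩, T6_2212), (7, 0, ⟨531, 6, 108⟩, T6_2440), (7, 0, ⟨531, 6, 108⟩, T6_2200),
    (7, 0, ⟨531, 6, 108⟩, T6_2209), (7, 0, ⟨531, 6, 108⟩, T6_2185), (7, 0, ⟨531, 6, 108⟩, T6_2434),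
    (7, 0, ⟨531, 6, 108⟩, T6_2194), (7, 0, ⟨531, 6, 108⟩, T6_2338), (7, 0, ⟨531, 6, 108⟩, T6_2182),
    (7, 0, ⟨546, 6, 114⟩, T6_2448), (7, 0, ⟨546, 6, 114⟩, T6_2436), (7, 0, ⟨546, 6, 114⟩, T6_2196),
    (7, 0, ⟨546, 6, 114⟩, T6_2340), (7, 0, ⟨546, 6, 114⟩, T6_2376), (7, 0, ⟨546, 6, 114⟩, T6_2328),
    (7, 0, ⟨546, 6, 114⟩, T6_2433), (7, 0, ⟨546, 6, 114⟩, T6_2193), (7, 0, ⟨546, 6, 114⟩, T6_2337),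
    (7, 0, ⟨546, 6, 114⟩, T6_2181), (7, 0, ⟨546, 6, 114⟩, T6_2313), (7, 0, ⟨546, 6, 114⟩, T6_2121),
    (7, 0, ⟨546, 6, 114⟩, T6_2370), (7, 0, ⟨546, 6, 114⟩, T6_2322), (7, 0, ⟨561, 6, 120⟩, T6_2384),
    (7, 0, ⟨561, 6, 120⟩, T6_2372), (7, 0, ⟨561, 6, 120⟩, T6_2324), (7, 0, ⟨561, 6, 120⟩, T6_2132),
    (7, 0, ⟨561, 6, 120⟩, T6_2369), (7, 0, ⟨561, 6, 120⟩, T6_2321), (7, 0, ⟨561, 6, 120⟩, T6_2129),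
    (7, 0, ⟨561, 6, 120⟩, T6_2309), (7, 0, ⟨561, 6, 120⟩, T6_2117), (7, 0, ⟨561, 6, 120⟩, T6_2069),
    (7, 0, ⟨576, 6, 126⟩, T6_1108), (7, 0, ⟨576, 6, 126⟩, T6_1105), (7, 0, ⟨771, 6, 150⟩, T6_2208),
    (7, 0, ⟨771, 6, 150⟩, T6_2184), (7, 0, ⟨771, 6, 150⟩, T6_2178), (7, 0, ⟨786, 6, 156⟩, T6_2432),
    (7, 0, ⟨786, 6, 156⟩, T6_2192), (7, 0, ⟨786, 6, 156⟩, T6_2336), (7, 0, ⟨786, 6, 156⟩, T6_2180),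
    (7, 0, ⟨786, 6, 156⟩, T6_2312), (7, 0, ⟨786, 6, 156⟩, T6_2120), (7, 0, ⟨786, 6, 156⟩, T6_2177),
    (7, 0, ⟨786, 6, 156⟩, T6_2057), (7, 0, ⟨786, 6, 156⟩, T6_2306), (7, 0, ⟨786, 6, 156⟩, T6_2114),
    (7, 0, ⟨801, 6, 162⟩, T6_2368), (7, 0, ⟨801, 6, 162⟩, T6_2320), (7, 0, ⟨801, 6, 162⟩, T6_2128),
    (7, 0, ⟨801, 6, 162⟩, T6_2308), (7, 0, ⟨801, 6, 162⟩, T6_2116), (7, 0, ⟨801, 6, 162⟩, T6_2068),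
    (7, 0, ⟨801, 6, 162⟩, T6_2305), (7, 0, ⟨801, 6, 162⟩, T6_2113), (7, 0, ⟨801, 6, 162⟩, T6_2065),
    (7, 0, ⟨801, 6, 162⟩, T6_2053), (7, 0, ⟨816, 6, 168⟩, T6_1104), (7, 0, ⟨816, 6, 168⟩, T6_1092),
    (7, 0, ⟨816, 6, 168⟩, T6_1089), (7, 0, ⟨1026, 6, 198⟩, T6_2176), (7, 0, ⟨1026, 6, 198⟩, T6_2056),
    (7, 0, ⟨1041, 6, 204⟩, T6_2304), (7, 0, ⟨1041, 6, 204⟩, T6_2112),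
    (7, 0, ⟨1041, 6, 204⟩, T6_2064), (7, 0, ⟨1041, 6, 204⟩, T6_2052),
    (7, 0, ⟨1041, 6, 204⟩, T6_2049), (7, 0, ⟨1056, 6, 210⟩, T6_1088),
    (7, 0, ⟨1056, 6, 210⟩, T6_1028), (7, 0, ⟨1281, 6, 246⟩, T6_2048),
    (7, 0, ⟨1296, 6, 252⟩, T6_1024), (8, 0, ⟨256, 1, 49⟩, T1_0), (8, 0, ⟨17, 2, 8⟩, T2_9),
    (8, 0, ⟨18, 3, 9⟩, T3_38), (8, 0, ⟨33, 3, 15⟩, T3_37), (8, 0, ⟨258, 3, 51⟩, T3_34),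
    (8, 0, ⟨273, 3, 57⟩, T3_36), (8, 0, ⟨273, 3, 57⟩, T3_33), (8, 0, ⟨288, 3, 63⟩, T3_17),
    (8, 0, ⟨513, 3, 99⟩, T3_32) ]

def j37 : allJ GA lf J37 = true := by decide +kernel

end Pool.Agent.Work.MP_bde882_al.J62
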