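import Pool.Agent.Work.MP_bde882_al_h62.JobDefs

/-!
Job module 38 (generated).
-/

set_option autoImplicit false
set_option maxRecDepth 100000
set_option linter.defProp false

namespace Pool.Agent.Work.MP_bde882_al.J62

open Pool.Agent.Work.MP_bde882_al.Pg62
open Pool.Agent.Work.MP_bde882_al.Tab
open Pool.Agent.Work.MP_bde882_al.H69

noncomputable def J38 : List (ℕ × ℕ × Hd × Op) :=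
  [ (8, 0, ⟨528, 3, 105⟩, T3_16), (8, 0, ⟨19, 4, 10⟩, T4_154), (8, 0, ⟨34, 4, 16⟩, T4_153),
    (8, 0, ⟨49, 4, 22⟩, T4_149), (8, 0, ⟨259, 4, 52⟩, T4_138), (8, 0, ⟨274, 4, 58⟩, T4_152),
    (8, 0, ⟨274, 4, 58⟩, T4_137), (8, 0, ⟨274, 4, 58⟩, T4_146), (8, 0, ⟨289, 4, 64⟩, T4_148),
    (8, 0, ⟨289, 4, 64⟩, T4_145), (8, 0, ⟨289, 4, 64⟩, T4_133), (8, 0, ⟨304, 4, 70⟩, T4_69),
    (8, 0, ⟨514, 4, 100⟩, T4_136), (8, 0, ⟨529, 4, 106⟩, T4_144), (8, 0, ⟨529, 4, 106⟩, T4_132),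
    (8, 0, ⟨529, 4, 106⟩, T4_129), (8, 0, ⟨544, 4, 112⟩, T4_68), (8, 0, ⟨769, 4, 148⟩, T4_128),
    (8, 0, ⟨784, 4, 154⟩, T4_64), (8, 0, ⟨20, 5, 11⟩, T5_618), (8, 0, ⟨35, 5, 17⟩, T5_617),
    (8, 0, ⟨35, 5, 17⟩, T5_614), (8, 0, ⟨50, 5, 23⟩, T5_613), (8, 0, ⟨50, 5, 23⟩, T5_598),
    (8, 0, ⟨65, 5, 29⟩, T5_597), (8, 0, ⟨260, 5, 53⟩, T5_554), (8, 0, ⟨275, 5, 59⟩, T5_616),
    (8, 0, ⟨275, 5, 59⟩, T5_553), (8, 0, ⟨275, 5, 59⟩, T5_610), (8, 0, ⟨275, 5, 59⟩, T5_550),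
    (8, 0, ⟨290, 5, 65⟩, T5_612), (8, 0, ⟨290, 5, 65⟩, T5_609), (8, 0, ⟨290, 5, 65⟩, T5_549),
    (8, 0, ⟨290, 5, 65⟩, T5_585), (8, 0, ⟨290, 5, 65⟩, T5_594), (8, 0, ⟨290, 5, 65⟩, T5_582),
    (8, 0, ⟨305, 5, 71⟩, T5_596), (8, 0, ⟨305, 5, 71⟩, T5_593), (8, 0, ⟨305, 5, 71⟩, T5_581),
    (8, 0, ⟨305, 5, 71⟩, T5_533), (8, 0, ⟨320, 5, 77⟩, T5_277), (8, 0, ⟨515, 5, 101⟩, T5_552),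
    (8, 0, ⟨515, 5, 101⟩, T5_546), (8, 0, ⟨530, 5, 107⟩, T5_608), (8, 0, ⟨530, 5, 107⟩, T5_548),
    (8, 0, ⟨530, 5, 107⟩, T5_584), (8, 0, ⟨530, 5, 107⟩, T5_545), (8, 0, ⟨530, 5, 107⟩, T5_578),
    (8, 0, ⟨530, 5, 107⟩, T5_530), (8, 0, ⟨545, 5, 113⟩, T5_592), (8, 0, ⟨545, 5, 113⟩, T5_580),
    (8, 0, ⟨545, 5, 113⟩, T5_532), (8, 0, ⟨545, 5, 113⟩, T5_577), (8, 0, ⟨545, 5, 113⟩, T5_529),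
    (8, 0, ⟨545, 5, 113⟩, T5_517), (8, 0, ⟨560, 5, 119⟩, T5_276), (8, 0, ⟨560, 5, 119⟩, T5_273),
    (8, 0, ⟨770, 5, 149⟩, T5_544), (8, 0, ⟨770, 5, 149⟩, T5_514), (8, 0, ⟨785, 5, 155⟩, T5_576),
    (8, 0, ⟨785, 5, 155⟩, T5_528), (8, 0, ⟨785, 5, 155⟩, T5_516), (8, 0, ⟨785, 5, 155⟩, T5_513),
    (8, 0, ⟨800, 5, 161⟩, T5_272), (8, 0, ⟨800, 5, 161⟩, T5_257), (8, 0, ⟨1025, 5, 197⟩, T5_512),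
    (8, 0, ⟨1040, 5, 203⟩, T5_256), (9, 0, ⟨256, 1, 49⟩, T1_0), (9, 0, ⟨17, 2, 8⟩, T2_9),
    (9, 0, ⟨18, 3, 9⟩, T3_38), (9, 0, ⟨33, 3, 15⟩, T3_37), (9, 0, ⟨258, 3, 51⟩, T3_34),
    (9, 0, ⟨273, 3, 57⟩, T3_36), (9, 0, ⟨273, 3, 57⟩, T3_33), (9, 0, ⟨288, 3, 63⟩, T3_17),
    (9, 0, ⟨513, 3, 99⟩, T3_32) ]

def j38 : allJ GA lf J38 = true := by decide +kernel

end Pool.Agent.Work.MP_bde882_al.J62
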