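import Pool.Agent.Work.MP_bde882_al_h62.JobDefs

/-!
Job module 39 (generated).
-/

set_option autoImplicit false
set_option maxRecDepth 100000
set_option linter.defProp false

namespace Pool.Agent.Work.MP_bde882_al.J62

open Pool.Agent.Work.MP_bde882_al.Pg62
open Pool.Agent.Work.MP_bde882_al.Tab
open Pool.Agent.Work.MP_bde882_al.H69

noncomputable def J39 : List (ℕ × ℕ × Hd × Op) :=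
  [ (9, 0, ⟨528, 3, 105⟩, T3_16), (9, 0, ⟨19, 4, 10⟩, T4_154), (9, 0, ⟨34, 4, 16⟩, T4_153),
    (9, 0, ⟨49, 4, 22⟩, T4_149), (9, 0, ⟨259, 4, 52⟩, T4_138), (9, 0, ⟨274, 4, 58⟩, T4_152),
    (9, 0, ⟨274, 4, 58⟩, T4_137), (9, 0, ⟨274, 4, 58⟩, T4_146), (9, 0, ⟨289, 4, 64⟩, T4_148),
    (9, 0, ⟨289, 4, 64⟩, T4_145), (9, 0, ⟨289, 4, 64⟩, T4_133), (9, 0, ⟨304, 4, 70⟩, T4_69),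
    (9, 0, ⟨514, 4, 100⟩, T4_136), (9, 0, ⟨529, 4, 106⟩, T4_144), (9, 0, ⟨529, 4, 106⟩, T4_132),
    (9, 0, ⟨529, 4, 106⟩, T4_129), (9, 0, ⟨544, 4, 112⟩, T4_68), (9, 0, ⟨769, 4, 148⟩, T4_128),
    (9, 0, ⟨784, 4, 154⟩, T4_64), (10, 0, ⟨256, 1, 49⟩, T1_0), (10, 0, ⟨17, 2, 8⟩, T2_9),
    (10, 0, ⟨18, 3, 9⟩, T3_38), (10, 0, ⟨33, 3, 15⟩, T3_37), (10, 0, ⟨258, 3, 51⟩, T3_34),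
    (10, 0, ⟨273, 3, 57⟩, T3_36), (10, 0, ⟨273, 3, 57⟩, T3_33), (10, 0, ⟨288, 3, 63⟩, T3_17),
    (10, 0, ⟨513, 3, 99⟩, T3_32), (10, 0, ⟨528, 3, 105⟩, T3_16), (15, 0, ⟨256, 1, 49⟩, T1_0),
    (15, 0, ⟨17, 2, 8⟩, T2_9), (15, 0, ⟨18, 3, 9⟩, T3_38), (15, 0, ⟨33, 3, 15⟩, T3_37),
    (15, 0, ⟨258, 3, 51⟩, T3_34), (15, 0, ⟨273, 3, 57⟩, T3_36), (15, 0, ⟨273, 3, 57⟩, T3_33),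
    (15, 0, ⟨288, 3, 63⟩, T3_17), (15, 0, ⟨513, 3, 99⟩, T3_32), (15, 0, ⟨528, 3, 105⟩, T3_16),
    (15, 0, ⟨19, 4, 10⟩, T4_154), (15, 0, ⟨34, 4, 16⟩, T4_153), (15, 0, ⟨49, 4, 22⟩, T4_149),
    (15, 0, ⟨259, 4, 52⟩, T4_138), (15, 0, ⟨274, 4, 58⟩, T4_152), (15, 0, ⟨274, 4, 58⟩, T4_137),
    (15, 0, ⟨274, 4, 58⟩, T4_146), (15, 0, ⟨289, 4, 64⟩, T4_148), (15, 0, ⟨289, 4, 64⟩, T4_145),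
    (15, 0, ⟨289, 4, 64⟩, T4_133), (15, 0, ⟨304, 4, 70⟩, T4_69), (15, 0, ⟨514, 4, 100⟩, T4_136),
    (15, 0, ⟨529, 4, 106⟩, T4_144), (15, 0, ⟨529, 4, 106⟩, T4_132), (15, 0, ⟨529, 4, 106⟩, T4_129),
    (15, 0, ⟨544, 4, 112⟩, T4_68), (15, 0, ⟨769, 4, 148⟩, T4_128), (15, 0, ⟨784, 4, 154⟩, T4_64),
    (16, 0, ⟨256, 1, 49⟩, T1_0), (16, 0, ⟨17, 2, 8⟩, T2_9), (16, 0, ⟨18, 3, 9⟩, T3_38),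
    (16, 0, ⟨33, 3, 15⟩, T3_37), (16, 0, ⟨258, 3, 51⟩, T3_34), (16, 0, ⟨273, 3, 57⟩, T3_36),
    (16, 0, ⟨273, 3, 57⟩, T3_33), (16, 0, ⟨288, 3, 63⟩, T3_17), (16, 0, ⟨513, 3, 99⟩, T3_32),
    (16, 0, ⟨528, 3, 105⟩, T3_16), (16, 1, ⟨256, 1, 49⟩, T1_0), (16, 1, ⟨17, 2, 8⟩, T2_9),
    (16, 1, ⟨18, 3, 9⟩, T3_38), (16, 1, ⟨33, 3, 15⟩, T3_37), (16, 1, ⟨258, 3, 51⟩, T3_34),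
    (16, 1, ⟨273, 3, 57⟩, T3_36), (16, 1, ⟨273, 3, 57⟩, T3_33), (16, 1, ⟨288, 3, 63⟩, T3_17),
    (16, 1, ⟨513, 3, 99⟩, T3_32), (16, 1, ⟨528, 3, 105⟩, T3_16), (17, 0, ⟨256, 1, 49⟩, T1_0),
    (17, 0, ⟨17, 2, 8⟩, T2_9), (17, 1, ⟨256, 1, 49⟩, T1_0), (17, 1, ⟨17, 2, 8⟩, T2_9),
    (18, 0, ⟨256, 1, 49⟩, T1_0), (18, 1, ⟨256, 1, 49⟩, T1_0), (22, 0, ⟨256, 1, 49⟩, T1_0),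
    (22, 0, ⟨17, 2, 8⟩, T2_9), (22, 0, ⟨18, 3, 9⟩, T3_38), (22, 0, ⟨33, 3, 15⟩, T3_37),
    (22, 0, ⟨258, 3, 51⟩, T3_34), (22, 0, ⟨273, 3, 57⟩, T3_36), (22, 0, ⟨273, 3, 57⟩, T3_33),
    (22, 0, ⟨288, 3, 63⟩, T3_17), (22, 0, ⟨513, 3, 99⟩, T3_32), (22, 0, ⟨528, 3, 105⟩, T3_16),
    (23, 0, ⟨256, 1, 49⟩, T1_0), (23, 0, ⟨17, 2, 8⟩, T2_9), (23, 1, ⟨256, 1, 49⟩, T1_0),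
    (23, 1, ⟨17, 2, 8⟩, T2_9), (24, 0, ⟨256, 1, 49⟩, T1_0), (24, 1, ⟨256, 1, 49⟩, T1_0),
    (24, 2, ⟨256, 1, 49⟩, T1_0), (24, 3, ⟨256, 1, 49⟩, T1_0), (30, 0, ⟨256, 1, 49⟩, T1_0),
    (30, 1, ⟨256, 1, 49⟩, T1_0), (49, 0, ⟨256, 1, 49⟩, T1_0), (49, 0, ⟨17, 2, 8⟩, T2_9),
    (49, 0, ⟨18, 3, 9⟩, T3_38), (49, 0, ⟨33, 3, 15⟩, T3_37), (49, 0, ⟨258, 3, 51⟩, T3_34),
    (49, 0, ⟨273, 3, 57⟩, T3_36), (49, 0, ⟨273, 3, 57⟩, T3_33), (49, 0, ⟨288, 3, 63⟩, T3_17),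
    (49, 0, ⟨513, 3, 99⟩, T3_32), (49, 0, ⟨528, 3, 105⟩, T3_16), (49, 0, ⟨19, 4, 10⟩, T4_154) ]

def j39 : allJ GA lf J39 = true := by decide +kernel

end Pool.Agent.Work.MP_bde882_al.J62
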