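import Pool.Agent.Work.MP_bde882_al_h62.JobDefs

/-!
Job module 40 (generated).
-/

set_option autoImplicit false
set_option maxRecDepth 100000
set_option linter.defProp false

namespace Pool.Agent.Work.MP_bde882_al.J62

open Pool.Agent.Work.MP_bde882_al.Pg62
open Pool.Agent.Work.MP_bde882_al.Tab
open Pool.Agent.Work.MP_bde882_al.H69

noncomputable def J40 : List (ℕ × ℕ × Hd × Op) :=
  [ (49, 0, ⟨34, 4, 16⟩, T4_153), (49, 0, ⟨49, 4, 22⟩, T4_149), (49, 0, ⟨259, 4, 52⟩, T4_138),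
    (49, 0, ⟨274, 4, 58⟩, T4_152), (49, 0, ⟨274, 4, 58⟩, T4_137), (49, 0, ⟨274, 4, 58⟩, T4_146),
    (49, 0, ⟨289, 4, 64⟩, T4_148), (49, 0, ⟨289, 4, 64⟩, T4_145), (49, 0, ⟨289, 4, 64⟩, T4_133),
    (49, 0, ⟨304, 4, 70⟩, T4_69) ]

def j40 : allJ GA lf J40 = true := by decide +kernel

end Pool.Agent.Work.MP_bde882_al.J62
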