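import Pool.Agent.Work.MP_bde882_al_h62.JobDefs

/-!
Job module 42 (generated).
-/

set_option autoImplicit false
set_option maxRecDepth 100000
set_option linter.defProp false

namespace Pool.Agent.Work.MP_bde882_al.J62

open Pool.Agent.Work.MP_bde882_al.Pg62
open Pool.Agent.Work.MP_bde882_al.Tab
open Pool.Agent.Work.MP_bde882_al.H69

noncomputable def J42 : List (ℕ × ℕ × Hd × Op) :=
  [ (49, 0, ⟨50, 5, 23⟩, T5_613), (49, 0, ⟨50, 5, 23⟩, T5_598), (49, 0, ⟨65, 5, 29⟩, T5_597),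
    (49, 0, ⟨260, 5, 53⟩, T5_554), (49, 0, ⟨275, 5, 59⟩, T5_616), (49, 0, ⟨275, 5, 59⟩, T5_553),
    (49, 0, ⟨275, 5, 59⟩, T5_610), (49, 0, ⟨275, 5, 59⟩, T5_550), (49, 0, ⟨290, 5, 65⟩, T5_612),
    (49, 0, ⟨290, 5, 65⟩, T5_609), (49, 0, ⟨290, 5, 65⟩, T5_549), (49, 0, ⟨290, 5, 65⟩, T5_585),
    (49, 0, ⟨290, 5, 65⟩, T5_594), (49, 0, ⟨290, 5, 65⟩, T5_582), (49, 0, ⟨305, 5, 71⟩, T5_596),
    (49, 0, ⟨305, 5, 71⟩, T5_593), (49, 0, ⟨305, 5, 71⟩, T5_581), (49, 0, ⟨305, 5, 71⟩, T5_533),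
    (49, 0, ⟨320, 5, 77⟩, T5_277), (49, 0, ⟨515, 5, 101⟩, T5_552), (49, 0, ⟨515, 5, 101⟩, T5_546) ]

def j42 : allJ GA lf J42 = true := by decide +kernel

end Pool.Agent.Work.MP_bde882_al.J62
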