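import Pool.Agent.Work.MP_bde882_al_h62.JobDefs

/-!
Job module 45 (generated).
-/

set_option autoImplicit false
set_option maxRecDepth 100000
set_option linter.defProp false

namespace Pool.Agent.Work.MP_bde882_al.J62

open Pool.Agent.Work.MP_bde882_al.Pg62
open Pool.Agent.Work.MP_bde882_al.Tab
open Pool.Agent.Work.MP_bde882_al.H69

noncomputable def J45 : List (ℕ × ℕ × Hd × Op) :=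
  [ (56, 0, ⟨259, 4, 52⟩, T4_138), (56, 0, ⟨274, 4, 58⟩, T4_152), (56, 0, ⟨274, 4, 58⟩, T4_137),
    (56, 0, ⟨274, 4, 58⟩, T4_146), (56, 0, ⟨289, 4, 64⟩, T4_148), (56, 0, ⟨289, 4, 64⟩, T4_145),
    (56, 0, ⟨289, 4, 64⟩, T4_133), (56, 0, ⟨304, 4, 70⟩, T4_69), (56, 0, ⟨514, 4, 100⟩, T4_136),
    (56, 0, ⟨529, 4, 106⟩, T4_144), (56, 0, ⟨529, 4, 106⟩, T4_132), (56, 0, ⟨529, 4, 106⟩, T4_129),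
    (56, 0, ⟨544, 4, 112⟩, T4_68), (56, 0, ⟨769, 4, 148⟩, T4_128), (56, 0, ⟨784, 4, 154⟩, T4_64),
    (56, 0, ⟨20, 5, 11⟩, T5_618), (56, 0, ⟨35, 5, 17⟩, T5_617), (56, 0, ⟨35, 5, 17⟩, T5_614),
    (56, 0, ⟨50, 5, 23⟩, T5_613), (56, 0, ⟨50, 5, 23⟩, T5_598), (56, 0, ⟨65, 5, 29⟩, T5_597),
    (56, 0, ⟨260, 5, 53⟩, T5_554), (56, 0, ⟨275, 5, 59⟩, T5_616), (56, 0, ⟨275, 5, 59⟩, T5_553),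
    (56, 0, ⟨275, 5, 59⟩, T5_610), (56, 0, ⟨275, 5, 59⟩, T5_550), (56, 0, ⟨290, 5, 65⟩, T5_612),
    (56, 0, ⟨290, 5, 65⟩, T5_609), (56, 0, ⟨290, 5, 65⟩, T5_549), (56, 0, ⟨290, 5, 65⟩, T5_585),
    (56, 0, ⟨290, 5, 65⟩, T5_594), (56, 0, ⟨290, 5, 65⟩, T5_582), (56, 0, ⟨305, 5, 71⟩, T5_596),
    (56, 0, ⟨305, 5, 71⟩, T5_593), (56, 0, ⟨305, 5, 71⟩, T5_581), (56, 0, ⟨305, 5, 71⟩, T5_533),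
    (56, 0, ⟨320, 5, 77⟩, T5_277), (56, 0, ⟨515, 5, 101⟩, T5_552), (56, 0, ⟨515, 5, 101⟩, T5_546),
    (56, 0, ⟨530, 5, 107⟩, T5_608), (56, 0, ⟨530, 5, 107⟩, T5_548), (56, 0, ⟨530, 5, 107⟩, T5_584),
    (56, 0, ⟨530, 5, 107⟩, T5_545), (56, 0, ⟨530, 5, 107⟩, T5_578), (56, 0, ⟨530, 5, 107⟩, T5_530),
    (56, 0, ⟨545, 5, 113⟩, T5_592), (56, 0, ⟨545, 5, 113⟩, T5_580), (56, 0, ⟨545, 5, 113⟩, T5_532),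
    (56, 0, ⟨545, 5, 113⟩, T5_577), (56, 0, ⟨545, 5, 113⟩, T5_529), (56, 0, ⟨545, 5, 113⟩, T5_517),
    (56, 0, ⟨560, 5, 119⟩, T5_276), (56, 0, ⟨560, 5, 119⟩, T5_273), (56, 0, ⟨770, 5, 149⟩, T5_544),
    (56, 0, ⟨770, 5, 149⟩, T5_514), (56, 0, ⟨785, 5, 155⟩, T5_576), (56, 0, ⟨785, 5, 155⟩, T5_528),
    (56, 0, ⟨785, 5, 155⟩, T5_516), (56, 0, ⟨785, 5, 155⟩, T5_513), (56, 0, ⟨800, 5, 161⟩, T5_272),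
    (56, 0, ⟨800, 5, 161⟩, T5_257), (56, 0, ⟨1025, 5, 197⟩, T5_512), (56, 0, ⟨1040, 5, 203⟩, T5_256),
    (57, 0, ⟨256, 1, 49⟩, T1_0), (57, 0, ⟨17, 2, 8⟩, T2_9), (57, 0, ⟨18, 3, 9⟩, T3_38),
    (57, 0, ⟨33, 3, 15⟩, T3_37), (57, 0, ⟨258, 3, 51⟩, T3_34), (57, 0, ⟨273, 3, 57⟩, T3_36),
    (57, 0, ⟨273, 3, 57⟩, T3_33), (57, 0, ⟨288, 3, 63⟩, T3_17), (57, 0, ⟨513, 3, 99⟩, T3_32),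
    (57, 0, ⟨528, 3, 105⟩, T3_16), (57, 0, ⟨19, 4, 10⟩, T4_154), (57, 0, ⟨34, 4, 16⟩, T4_153),
    (57, 0, ⟨49, 4, 22⟩, T4_149), (57, 0, ⟨259, 4, 52⟩, T4_138), (57, 0, ⟨274, 4, 58⟩, T4_152),
    (57, 0, ⟨274, 4, 58⟩, T4_137), (57, 0, ⟨274, 4, 58⟩, T4_146), (57, 0, ⟨289, 4, 64⟩, T4_148),
    (57, 0, ⟨289, 4, 64⟩, T4_145), (57, 0, ⟨289, 4, 64⟩, T4_133), (57, 0, ⟨304, 4, 70⟩, T4_69),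
    (57, 0, ⟨514, 4, 100⟩, T4_136), (57, 0, ⟨529, 4, 106⟩, T4_144), (57, 0, ⟨529, 4, 106⟩, T4_132),
    (57, 0, ⟨529, 4, 106⟩, T4_129), (57, 0, ⟨544, 4, 112⟩, T4_68), (57, 0, ⟨769, 4, 148⟩, T4_128),
    (57, 0, ⟨784, 4, 154⟩, T4_64), (57, 1, ⟨256, 1, 49⟩, T1_0), (57, 1, ⟨17, 2, 8⟩, T2_9),
    (57, 1, ⟨18, 3, 9⟩, T3_38), (57, 1, ⟨33, 3, 15⟩, T3_37), (57, 1, ⟨258, 3, 51⟩, T3_34),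
    (57, 1, ⟨273, 3, 57⟩, T3_36), (57, 1, ⟨273, 3, 57⟩, T3_33), (57, 1, ⟨288, 3, 63⟩, T3_17),
    (57, 1, ⟨513, 3, 99⟩, T3_32), (57, 1, ⟨528, 3, 105⟩, T3_16), (57, 1, ⟨19, 4, 10⟩, T4_154),
    (57, 1, ⟨34, 4, 16⟩, T4_153), (57, 1, ⟨49, 4, 22⟩, T4_149), (57, 1, ⟨259, 4, 52⟩, T4_138),
    (57, 1, ⟨274, 4, 58⟩, T4_152), (57, 1, ⟨274, 4, 58⟩, T4_137), (57, 1, ⟨274, 4, 58⟩, T4_146),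
    (57, 1, ⟨289, 4, 64⟩, T4_148), (57, 1, ⟨289, 4, 64⟩, T4_145), (57, 1, ⟨289, 4, 64⟩, T4_133),
    (57, 1, ⟨304, 4, 70⟩, T4_69), (57, 1, ⟨514, 4, 100⟩, T4_136), (57, 1, ⟨529, 4, 106⟩, T4_144),
    (57, 1, ⟨529, 4, 106⟩, T4_132), (57, 1, ⟨529, 4, 106⟩, T4_129), (57, 1, ⟨544, 4, 112⟩, T4_68),
    (57, 1, ⟨769, 4, 148⟩, T4_128), (57, 1, ⟨784, 4, 154⟩, T4_64), (57, 2, ⟨256, 1, 49⟩, T1_0),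
    (57, 2, ⟨17, 2, 8⟩, T2_9), (57, 2, ⟨18, 3, 9⟩, T3_38), (57, 2, ⟨33, 3, 15⟩, T3_37),
    (57, 2, ⟨258, 3, 51⟩, T3_34), (57, 2, ⟨273, 3, 57⟩, T3_36), (57, 2, ⟨273, 3, 57⟩, T3_33),
    (57, 2, ⟨288, 3, 63⟩, T3_17), (57, 2, ⟨513, 3, 99⟩, T3_32), (57, 2, ⟨528, 3, 105⟩, T3_16),
    (57, 2, ⟨19, 4, 10⟩, T4_154), (57, 2, ⟨34, 4, 16⟩, T4_153) ]

def j45 : allJ GA lf J45 = true := by decide +kernel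

end Pool.Agent.Work.MP_bde882_al.J62
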