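import Pool.Agent.Work.MP_bde882_al_h62.JobDefs

/-!
Job module 46 (generated).
-/

set_option autoImplicit false
set_option maxRecDepth 100000
set_option linter.defProp false

namespace Pool.Agent.Work.MP_bde882_al.J62

open Pool.Agent.Work.MP_bde882_al.Pg62
open Pool.Agent.Work.MP_bde882_al.Tab
open Pool.Agent.Work.MP_bde882_al.H69

noncomputable def J46 : List (ℕ × ℕ × Hd × Op) :=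
  [ (57, 2, ⟨49, 4, 22⟩, T4_149), (57, 2, ⟨259, 4, 52⟩, T4_138), (57, 2, ⟨274, 4, 58⟩, T4_152),
    (57, 2, ⟨274, 4, 58⟩, T4_137), (57, 2, ⟨274, 4, 58⟩, T4_146), (57, 2, ⟨289, 4, 64⟩, T4_148),
    (57, 2, ⟨289, 4, 64⟩, T4_145), (57, 2, ⟨289, 4, 64⟩, T4_133), (57, 2, ⟨304, 4, 70⟩, T4_69),
    (57, 2, ⟨514, 4, 100⟩, T4_136), (57, 2, ⟨529, 4, 106⟩, T4_144), (57, 2, ⟨529, 4, 106⟩, T4_132),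
    (57, 2, ⟨529, 4, 106⟩, T4_129), (57, 2, ⟨544, 4, 112⟩, T4_68), (57, 2, ⟨769, 4, 148⟩, T4_128),
    (57, 2, ⟨784, 4, 154⟩, T4_64), (58, 0, ⟨256, 1, 49⟩, T1_0), (58, 0, ⟨17, 2, 8⟩, T2_9),
    (58, 0, ⟨18, 3, 9⟩, T3_38), (58, 0, ⟨33, 3, 15⟩, T3_37), (58, 0, ⟨258, 3, 51⟩, T3_34),
    (58, 0, ⟨273, 3, 57⟩, T3_36), (58, 0, ⟨273, 3, 57⟩, T3_33), (58, 0, ⟨288, 3, 63⟩, T3_17),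
    (58, 0, ⟨513, 3, 99⟩, T3_32), (58, 0, ⟨528, 3, 105⟩, T3_16), (58, 1, ⟨256, 1, 49⟩, T1_0),
    (58, 1, ⟨17, 2, 8⟩, T2_9), (58, 1, ⟨18, 3, 9⟩, T3_38), (58, 1, ⟨33, 3, 15⟩, T3_37),
    (58, 1, ⟨258, 3, 51⟩, T3_34), (58, 1, ⟨273, 3, 57⟩, T3_36), (58, 1, ⟨273, 3, 57⟩, T3_33),
    (58, 1, ⟨288, 3, 63⟩, T3_17), (58, 1, ⟨513, 3, 99⟩, T3_32), (58, 1, ⟨528, 3, 105⟩, T3_16),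
    (58, 2, ⟨256, 1, 49⟩, T1_0), (58, 2, ⟨17, 2, 8⟩, T2_9), (58, 2, ⟨18, 3, 9⟩, T3_38),
    (58, 2, ⟨33, 3, 15⟩, T3_37), (58, 2, ⟨258, 3, 51⟩, T3_34), (58, 2, ⟨273, 3, 57⟩, T3_36),
    (58, 2, ⟨273, 3, 57⟩, T3_33), (58, 2, ⟨288, 3, 63⟩, T3_17), (58, 2, ⟨513, 3, 99⟩, T3_32),
    (58, 2, ⟨528, 3, 105⟩, T3_16), (58, 3, ⟨256, 1, 49⟩, T1_0), (58, 3, ⟨17, 2, 8⟩, T2_9),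
    (58, 3, ⟨18, 3, 9⟩, T3_38), (58, 3, ⟨33, 3, 15⟩, T3_37), (58, 3, ⟨258, 3, 51⟩, T3_34),
    (58, 3, ⟨273, 3, 57⟩, T3_36), (58, 3, ⟨273, 3, 57⟩, T3_33), (58, 3, ⟨288, 3, 63⟩, T3_17),
    (58, 3, ⟨513, 3, 99⟩, T3_32), (58, 3, ⟨528, 3, 105⟩, T3_16), (58, 4, ⟨256, 1, 49⟩, T1_0),
    (58, 4, ⟨17, 2, 8⟩, T2_9), (58, 4, ⟨18, 3, 9⟩, T3_38), (58, 4, ⟨33, 3, 15⟩, T3_37),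
    (58, 4, ⟨258, 3, 51⟩, T3_34), (58, 4, ⟨273, 3, 57⟩, T3_36), (58, 4, ⟨273, 3, 57⟩, T3_33),
    (58, 4, ⟨288, 3, 63⟩, T3_17), (58, 4, ⟨513, 3, 99⟩, T3_32), (58, 4, ⟨528, 3, 105⟩, T3_16),
    (59, 0, ⟨256, 1, 49⟩, T1_0), (59, 0, ⟨17, 2, 8⟩, T2_9), (59, 1, ⟨256, 1, 49⟩, T1_0),
    (59, 1, ⟨17, 2, 8⟩, T2_9), (59, 2, ⟨256, 1, 49⟩, T1_0), (59, 2, ⟨17, 2, 8⟩, T2_9),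
    (59, 3, ⟨256, 1, 49⟩, T1_0), (59, 3, ⟨17, 2, 8⟩, T2_9), (59, 4, ⟨256, 1, 49⟩, T1_0),
    (59, 4, ⟨17, 2, 8⟩, T2_9), (60, 0, ⟨256, 1, 49⟩, T1_0), (60, 1, ⟨256, 1, 49⟩, T1_0),
    (60, 2, ⟨256, 1, 49⟩, T1_0), (60, 3, ⟨256, 1, 49⟩, T1_0), (60, 4, ⟨256, 1, 49⟩, T1_0),
    (63, 0, ⟨256, 1, 49⟩, T1_0), (63, 0, ⟨17, 2, 8⟩, T2_9), (63, 0, ⟨18, 3, 9⟩, T3_38),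
    (63, 0, ⟨33, 3, 15⟩, T3_37), (63, 0, ⟨258, 3, 51⟩, T3_34), (63, 0, ⟨273, 3, 57⟩, T3_36),
    (63, 0, ⟨273, 3, 57⟩, T3_33), (63, 0, ⟨288, 3, 63⟩, T3_17), (63, 0, ⟨513, 3, 99⟩, T3_32),
    (63, 0, ⟨528, 3, 105⟩, T3_16), (63, 0, ⟨19, 4, 10⟩, T4_154), (63, 0, ⟨34, 4, 16⟩, T4_153),
    (63, 0, ⟨49, 4, 22⟩, T4_149), (63, 0, ⟨259, 4, 52⟩, T4_138), (63, 0, ⟨274, 4, 58⟩, T4_152),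
    (63, 0, ⟨274, 4, 58⟩, T4_137), (63, 0, ⟨274, 4, 58⟩, T4_146), (63, 0, ⟨289, 4, 64⟩, T4_148),
    (63, 0, ⟨289, 4, 64⟩, T4_145), (63, 0, ⟨289, 4, 64⟩, T4_133), (63, 0, ⟨304, 4, 70⟩, T4_69),
    (63, 0, ⟨514, 4, 100⟩, T4_136), (63, 0, ⟨529, 4, 106⟩, T4_144), (63, 0, ⟨529, 4, 106⟩, T4_132),
    (63, 0, ⟨529, 4, 106⟩, T4_129), (63, 0, ⟨544, 4, 112⟩, T4_68), (63, 0, ⟨769, 4, 148⟩, T4_128),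
    (63, 0, ⟨784, 4, 154⟩, T4_64), (64, 0, ⟨256, 1, 49⟩, T1_0), (64, 0, ⟨17, 2, 8⟩, T2_9),
    (64, 0, ⟨18, 3, 9⟩, T3_38), (64, 0, ⟨33, 3, 15⟩, T3_37), (64, 0, ⟨258, 3, 51⟩, T3_34),
    (64, 0, ⟨273, 3, 57⟩, T3_36), (64, 0, ⟨273, 3, 57⟩, T3_33), (64, 0, ⟨288, 3, 63⟩, T3_17),
    (64, 0, ⟨513, 3, 99⟩, T3_32), (64, 0, ⟨528, 3, 105⟩, T3_16), (64, 1, ⟨256, 1, 49⟩, T1_0),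
    (64, 1, ⟨17, 2, 8⟩, T2_9), (64, 1, ⟨18, 3, 9⟩, T3_38), (64, 1, ⟨33, 3, 15⟩, T3_37),
    (64, 1, ⟨258, 3, 51⟩, T3_34), (64, 1, ⟨273, 3, 57⟩, T3_36), (64, 1, ⟨273, 3, 57⟩, T3_33),
    (64, 1, ⟨288, 3, 63⟩, T3_17), (64, 1, ⟨513, 3, 99⟩, T3_32), (64, 1, ⟨528, 3, 105⟩, T3_16),
    (64, 2, ⟨256, 1, 49⟩, T1_0), (64, 2, ⟨17, 2, 8⟩, T2_9), (64, 2, ⟨18, 3, 9⟩, T3_38),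
    (64, 2, ⟨33, 3, 15⟩, T3_37), (64, 2, ⟨258, 3, 51⟩, T3_34), (64, 2, ⟨273, 3, 57⟩, T3_36),
    (64, 2, ⟨273, 3, 57⟩, T3_33), (64, 2, ⟨288, 3, 63⟩, T3_17), (64, 2, ⟨513, 3, 99⟩, T3_32),
    (64, 2, ⟨528, 3, 105⟩, T3_16), (64, 3, ⟨256, 1, 49⟩, T1_0), (64, 3, ⟨17, 2, 8⟩, T2_9),
    (64, 3, ⟨18, 3, 9⟩, T3_38), (64, 3, ⟨33, 3, 15⟩, T3_37), (64, 3, ⟨258, 3, 51⟩, T3_34),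
    (64, 3, ⟨273, 3, 57⟩, T3_36), (64, 3, ⟨273, 3, 57⟩, T3_33), (64, 3, ⟨288, 3, 63⟩, T3_17),
    (64, 3, ⟨513, 3, 99⟩, T3_32), (64, 3, ⟨528, 3, 105⟩, T3_16), (64, 4, ⟨256, 1, 49⟩, T1_0),
    (64, 4, ⟨17, 2, 8⟩, T2_9), (64, 4, ⟨18, 3, 9⟩, T3_38), (64, 4, ⟨33, 3, 15⟩, T3_37),
    (64, 4, ⟨258, 3, 51⟩, T3_34), (64, 4, ⟨273, 3, 57⟩, T3_36), (64, 4, ⟨273, 3, 57⟩, T3_33),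
    (64, 4, ⟨288, 3, 63⟩, T3_17), (64, 4, ⟨513, 3, 99⟩, T3_32), (64, 4, ⟨528, 3, 105⟩, T3_16),
    (65, 0, ⟨256, 1, 49⟩, T1_0), (65, 0, ⟨17, 2, 8⟩, T2_9), (65, 1, ⟨256, 1, 49⟩, T1_0),
    (65, 1, ⟨17, 2, 8⟩, T2_9), (65, 2, ⟨256, 1, 49⟩, T1_0), (65, 2, ⟨17, 2, 8⟩, T2_9),
    (65, 3, ⟨256, 1, 49⟩, T1_0), (65, 3, ⟨17, 2, 8⟩, T2_9), (65, 4, ⟨256, 1, 49⟩, T1_0),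
    (65, 4, ⟨17, 2, 8⟩, T2_9), (65, 5, ⟨256, 1, 49⟩, T1_0), (65, 5, ⟨17, 2, 8⟩, T2_9),
    (65, 6, ⟨256, 1, 49⟩, T1_0), (65, 6, ⟨17, 2, 8⟩, T2_9), (65, 7, ⟨256, 1, 49⟩, T1_0),
    (65, 7, ⟨17, 2, 8⟩, T2_9), (65, 8, ⟨256, 1, 49⟩, T1_0), (65, 8, ⟨17, 2, 8⟩, T2_9),
    (65, 9, ⟨256, 1, 49⟩, T1_0), (65, 9, ⟨17, 2, 8⟩, T2_9), (66, 0, ⟨256, 1, 49⟩, T1_0),
    (66, 1, ⟨256, 1, 49⟩, T1_0), (66, 2, ⟨256, 1, 49⟩, T1_0), (66, 3, ⟨256, 1, 49⟩, T1_0),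
    (66, 4, ⟨256, 1, 49⟩, T1_0), (66, 5, ⟨256, 1, 49⟩, T1_0), (66, 6, ⟨256, 1, 49⟩, T1_0),
    (66, 7, ⟨256, 1, 49⟩, T1_0), (66, 8, ⟨256, 1, 49⟩, T1_0), (66, 9, ⟨256, 1, 49⟩, T1_0),
    (66, 10, ⟨256, 1, 49⟩, T1_0), (66, 11, ⟨256, 1, 49⟩, T1_0), (66, 12, ⟨256, 1, 49⟩, T1_0),
    (66, 13, ⟨256, 1, 49⟩, T1_0), (66, 14, ⟨256, 1, 49⟩, T1_0), (66, 15, ⟨256, 1, 49⟩, T1_0),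
    (66, 16, ⟨256, 1, 49⟩, T1_0), (70, 0, ⟨256, 1, 49⟩, T1_0), (70, 0, ⟨17, 2, 8⟩, T2_9),
    (70, 0, ⟨18, 3, 9⟩, T3_38), (70, 0, ⟨33, 3, 15⟩, T3_37), (70, 0, ⟨258, 3, 51⟩, T3_34),
    (70, 0, ⟨273, 3, 57⟩, T3_36), (70, 0, ⟨273, 3, 57⟩, T3_33), (70, 0, ⟨288, 3, 63⟩, T3_17),
    (70, 0, ⟨513, 3, 99⟩, T3_32), (70, 0, ⟨528, 3, 105⟩, T3_16), (71, 0, ⟨256, 1, 49⟩, T1_0),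
    (71, 0, ⟨17, 2, 8⟩, T2_9), (71, 1, ⟨256, 1, 49⟩, T1_0), (71, 1, ⟨17, 2, 8⟩, T2_9),
    (71, 2, ⟨256, 1, 49⟩, T1_0), (71, 2, ⟨17, 2, 8⟩, T2_9), (71, 3, ⟨256, 1, 49⟩, T1_0),
    (71, 3, ⟨17, 2, 8⟩, T2_9), (71, 4, ⟨256, 1, 49⟩, T1_0), (71, 4, ⟨17, 2, 8⟩, T2_9),
    (72, 0, ⟨256, 1, 49⟩, T1_0), (72, 1, ⟨256, 1, 49⟩, T1_0), (72, 2, ⟨256, 1, 49⟩, T1_0),
    (72, 3, ⟨256, 1, 49⟩, T1_0), (72, 4, ⟨256, 1, 49⟩, T1_0), (72, 5, ⟨256, 1, 49⟩, T1_0),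
    (72, 6, ⟨256, 1, 49⟩, T1_0), (72, 7, ⟨256, 1, 49⟩, T1_0), (72, 8, ⟨256, 1, 49⟩, T1_0),
    (72, 9, ⟨256, 1, 49⟩, T1_0), (72, 10, ⟨256, 1, 49⟩, T1_0), (72, 11, ⟨256, 1, 49⟩, T1_0),
    (72, 12, ⟨256, 1, 49⟩, T1_0), (72, 13, ⟨256, 1, 49⟩, T1_0), (72, 14, ⟨256, 1, 49⟩, T1_0),
    (72, 15, ⟨256, 1, 49⟩, T1_0), (72, 16, ⟨256, 1, 49⟩, T1_0), (78, 0, ⟨256, 1, 49⟩, T1_0),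
    (78, 1, ⟨256, 1, 49⟩, T1_0), (78, 2, ⟨256, 1, 49⟩, T1_0), (78, 3, ⟨256, 1, 49⟩, T1_0),
    (78, 4, ⟨256, 1, 49⟩, T1_0), (99, 0, ⟨256, 1, 49⟩, T1_0), (99, 0, ⟨17, 2, 8⟩, T2_9),
    (99, 0, ⟨18, 3, 9⟩, T3_38), (99, 0, ⟨33, 3, 15⟩, T3_37), (99, 0, ⟨258, 3, 51⟩, T3_34),
    (99, 0, ⟨273, 3, 57⟩, T3_36), (99, 0, ⟨273, 3, 57⟩, T3_33), (99, 0, ⟨288, 3, 63⟩, T3_17),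
    (99, 0, ⟨513, 3, 99⟩, T3_32), (99, 0, ⟨528, 3, 105⟩, T3_16), (99, 0, ⟨19, 4, 10⟩, T4_154),
    (99, 0, ⟨34, 4, 16⟩, T4_153), (99, 0, ⟨49, 4, 22⟩, T4_149), (99, 0, ⟨259, 4, 52⟩, T4_138),
    (99, 0, ⟨274, 4, 58⟩, T4_152), (99, 0, ⟨274, 4, 58⟩, T4_137), (99, 0, ⟨274, 4, 58⟩, T4_146),
    (99, 0, ⟨289, 4, 64⟩, T4_148), (99, 0, ⟨289, 4, 64⟩, T4_145), (99, 0, ⟨289, 4, 64⟩, T4_133),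
    (99, 0, ⟨304, 4, 70⟩, T4_69), (99, 0, ⟨514, 4, 100⟩, T4_136), (99, 0, ⟨529, 4, 106⟩, T4_144),
    (99, 0, ⟨529, 4, 106⟩, T4_132), (99, 0, ⟨529, 4, 106⟩, T4_129), (99, 0, ⟨544, 4, 112⟩, T4_68),
    (99, 0, ⟨769, 4, 148⟩, T4_128), (99, 0, ⟨784, 4, 154⟩, T4_64), (100, 0, ⟨256, 1, 49⟩, T1_0),
    (100, 0, ⟨17, 2, 8⟩, T2_9), (100, 0, ⟨18, 3, 9⟩, T3_38), (100, 0, ⟨33, 3, 15⟩, T3_37),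
    (100, 0, ⟨258, 3, 51⟩, T3_34), (100, 0, ⟨273, 3, 57⟩, T3_36), (100, 0, ⟨273, 3, 57⟩, T3_33),
    (100, 0, ⟨288, 3, 63⟩, T3_17), (100, 0, ⟨513, 3, 99⟩, T3_32), (100, 0, ⟨528, 3, 105⟩, T3_16),
    (100, 1, ⟨256, 1, 49⟩, T1_0), (100, 1, ⟨17, 2, 8⟩, T2_9), (100, 1, ⟨18, 3, 9⟩, T3_38),
    (100, 1, ⟨33, 3, 15⟩, T3_37), (100, 1, ⟨258, 3, 51⟩, T3_34), (100, 1, ⟨273, 3, 57⟩, T3_36),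
    (100, 1, ⟨273, 3, 57⟩, T3_33), (100, 1, ⟨288, 3, 63⟩, T3_17), (100, 1, ⟨513, 3, 99⟩, T3_32),
    (100, 1, ⟨528, 3, 105⟩, T3_16), (101, 0, ⟨256, 1, 49⟩, T1_0), (101, 0, ⟨17, 2, 8⟩, T2_9),
    (101, 1, ⟨256, 1, 49⟩, T1_0), (101, 1, ⟨17, 2, 8⟩, T2_9), (102, 0, ⟨256, 1, 49⟩, T1_0),
    (102, 1, ⟨256, 1, 49⟩, T1_0), (105, 0, ⟨256, 1, 49⟩, T1_0), (105, 0, ⟨17, 2, 8⟩, T2_9),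
    (105, 0, ⟨18, 3, 9⟩, T3_38), (105, 0, ⟨33, 3, 15⟩, T3_37), (105, 0, ⟨258, 3, 51⟩, T3_34),
    (105, 0, ⟨273, 3, 57⟩, T3_36), (105, 0, ⟨273, 3, 57⟩, T3_33), (105, 0, ⟨288, 3, 63⟩, T3_17),
    (105, 0, ⟨513, 3, 99⟩, T3_32), (105, 0, ⟨528, 3, 105⟩, T3_16), (105, 0, ⟨19, 4, 10⟩, T4_154),
    (105, 0, ⟨34, 4, 16⟩, T4_153), (105, 0, ⟨49, 4, 22⟩, T4_149), (105, 0, ⟨259, 4, 52⟩, T4_138),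
    (105, 0, ⟨274, 4, 58⟩, T4_152), (105, 0, ⟨274, 4, 58⟩, T4_137), (105, 0, ⟨274, 4, 58⟩, T4_146),
    (105, 0, ⟨289, 4, 64⟩, T4_148), (105, 0, ⟨289, 4, 64⟩, T4_145), (105, 0, ⟨289, 4, 64⟩, T4_133),
    (105, 0, ⟨304, 4, 70⟩, T4_69), (105, 0, ⟨514, 4, 100⟩, T4_136), (105, 0, ⟨529, 4, 106⟩, T4_144),
    (105, 0, ⟨529, 4, 106⟩, T4_132), (105, 0, ⟨529, 4, 106⟩, T4_129), (105, 0, ⟨544, 4, 112⟩, T4_68),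
    (105, 0, ⟨769, 4, 148⟩, T4_128), (105, 0, ⟨784, 4, 154⟩, T4_64), (106, 0, ⟨256, 1, 49⟩, T1_0),
    (106, 0, ⟨17, 2, 8⟩, T2_9), (106, 0, ⟨18, 3, 9⟩, T3_38), (106, 0, ⟨33, 3, 15⟩, T3_37),
    (106, 0, ⟨258, 3, 51⟩, T3_34), (106, 0, ⟨273, 3, 57⟩, T3_36), (106, 0, ⟨273, 3, 57⟩, T3_33),
    (106, 0, ⟨288, 3, 63⟩, T3_17), (106, 0, ⟨513, 3, 99⟩, T3_32), (106, 0, ⟨528, 3, 105⟩, T3_16),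
    (106, 1, ⟨256, 1, 49⟩, T1_0), (106, 1, ⟨17, 2, 8⟩, T2_9), (106, 1, ⟨18, 3, 9⟩, T3_38),
    (106, 1, ⟨33, 3, 15⟩, T3_37), (106, 1, ⟨258, 3, 51⟩, T3_34), (106, 1, ⟨273, 3, 57⟩, T3_36),
    (106, 1, ⟨273, 3, 57⟩, T3_33), (106, 1, ⟨288, 3, 63⟩, T3_17), (106, 1, ⟨513, 3, 99⟩, T3_32),
    (106, 1, ⟨528, 3, 105⟩, T3_16), (106, 2, ⟨256, 1, 49⟩, T1_0), (106, 2, ⟨17, 2, 8⟩, T2_9),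
    (106, 2, ⟨18, 3, 9⟩, T3_38), (106, 2, ⟨33, 3, 15⟩, T3_37), (106, 2, ⟨258, 3, 51⟩, T3_34),
    (106, 2, ⟨273, 3, 57⟩, T3_36), (106, 2, ⟨273, 3, 57⟩, T3_33), (106, 2, ⟨288, 3, 63⟩, T3_17),
    (106, 2, ⟨513, 3, 99⟩, T3_32), (106, 2, ⟨528, 3, 105⟩, T3_16), (106, 3, ⟨256, 1, 49⟩, T1_0),
    (106, 3, ⟨17, 2, 8⟩, T2_9), (106, 3, ⟨18, 3, 9⟩, T3_38) ]

def j46 : allJ GA lf J46 = true := by decide +kernel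

end Pool.Agent.Work.MP_bde882_al.J62
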