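import Pool.Agent.Work.MP_bde882_al_h62.JobDefs

/-!
Job module 47 (generated).
-/

set_option autoImplicit false
set_option maxRecDepth 100000
set_option linter.defProp false

namespace Pool.Agent.Work.MP_bde882_al.J62

open Pool.Agent.Work.MP_bde882_al.Pg62
open Pool.Agent.Work.MP_bde882_al.Tab
open Pool.Agent.Work.MP_bde882_al.H69

noncomputable def J47 : List (ℕ × ℕ × Hd × Op) :=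
  [ (106, 3, ⟨33, 3, 15⟩, T3_37), (106, 3, ⟨258, 3, 51⟩, T3_34), (106, 3, ⟨273, 3, 57⟩, T3_36),
    (106, 3, ⟨273, 3, 57⟩, T3_33), (106, 3, ⟨288, 3, 63⟩, T3_17), (106, 3, ⟨513, 3, 99⟩, T3_32),
    (106, 3, ⟨528, 3, 105⟩, T3_16), (106, 4, ⟨256, 1, 49⟩, T1_0), (106, 4, ⟨17, 2, 8⟩, T2_9),
    (106, 4, ⟨18, 3, 9⟩, T3_38), (106, 4, ⟨33, 3, 15⟩, T3_37), (106, 4, ⟨258, 3, 51⟩, T3_34),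
    (106, 4, ⟨273, 3, 57⟩, T3_36), (106, 4, ⟨273, 3, 57⟩, T3_33), (106, 4, ⟨288, 3, 63⟩, T3_17),
    (106, 4, ⟨513, 3, 99⟩, T3_32), (106, 4, ⟨528, 3, 105⟩, T3_16), (107, 0, ⟨256, 1, 49⟩, T1_0),
    (107, 0, ⟨17, 2, 8⟩, T2_9), (107, 1, ⟨256, 1, 49⟩, T1_0), (107, 1, ⟨17, 2, 8⟩, T2_9),
    (107, 2, ⟨256, 1, 49⟩, T1_0), (107, 2, ⟨17, 2, 8⟩, T2_9), (107, 3, ⟨256, 1, 49⟩, T1_0),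
    (107, 3, ⟨17, 2, 8⟩, T2_9), (107, 4, ⟨256, 1, 49⟩, T1_0), (107, 4, ⟨17, 2, 8⟩, T2_9),
    (107, 5, ⟨256, 1, 49⟩, T1_0), (107, 5, ⟨17, 2, 8⟩, T2_9), (107, 6, ⟨256, 1, 49⟩, T1_0),
    (107, 6, ⟨17, 2, 8⟩, T2_9), (107, 7, ⟨256, 1, 49⟩, T1_0), (107, 7, ⟨17, 2, 8⟩, T2_9),
    (107, 8, ⟨256, 1, 49⟩, T1_0), (107, 8, ⟨17, 2, 8⟩, T2_9), (107, 9, ⟨256, 1, 49⟩, T1_0),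
    (107, 9, ⟨17, 2, 8⟩, T2_9), (108, 0, ⟨256, 1, 49⟩, T1_0), (108, 1, ⟨256, 1, 49⟩, T1_0),
    (108, 2, ⟨256, 1, 49⟩, T1_0), (108, 3, ⟨256, 1, 49⟩, T1_0), (108, 4, ⟨256, 1, 49⟩, T1_0),
    (108, 5, ⟨256, 1, 49⟩, T1_0), (108, 6, ⟨256, 1, 49⟩, T1_0), (108, 7, ⟨256, 1, 49⟩, T1_0),
    (108, 8, ⟨256, 1, 49⟩, T1_0), (108, 9, ⟨256, 1, 49⟩, T1_0), (108, 10, ⟨256, 1, 49⟩, T1_0),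
    (108, 11, ⟨256, 1, 49⟩, T1_0), (108, 12, ⟨256, 1, 49⟩, T1_0), (108, 13, ⟨256, 1, 49⟩, T1_0),
    (108, 14, ⟨256, 1, 49⟩, T1_0), (108, 15, ⟨256, 1, 49⟩, T1_0), (108, 16, ⟨256, 1, 49⟩, T1_0),
    (112, 0, ⟨256, 1, 49⟩, T1_0), (112, 0, ⟨17, 2, 8⟩, T2_9), (112, 0, ⟨18, 3, 9⟩, T3_38),
    (112, 0, ⟨33, 3, 15⟩, T3_37), (112, 0, ⟨258, 3, 51⟩, T3_34), (112, 0, ⟨273, 3, 57⟩, T3_36),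
    (112, 0, ⟨273, 3, 57⟩, T3_33), (112, 0, ⟨288, 3, 63⟩, T3_17), (112, 0, ⟨513, 3, 99⟩, T3_32),
    (112, 0, ⟨528, 3, 105⟩, T3_16), (112, 1, ⟨256, 1, 49⟩, T1_0), (112, 1, ⟨17, 2, 8⟩, T2_9),
    (112, 1, ⟨18, 3, 9⟩, T3_38), (112, 1, ⟨33, 3, 15⟩, T3_37), (112, 1, ⟨258, 3, 51⟩, T3_34),
    (112, 1, ⟨273, 3, 57⟩, T3_36), (112, 1, ⟨273, 3, 57⟩, T3_33), (112, 1, ⟨288, 3, 63⟩, T3_17),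
    (112, 1, ⟨513, 3, 99⟩, T3_32), (112, 1, ⟨528, 3, 105⟩, T3_16), (113, 0, ⟨256, 1, 49⟩, T1_0),
    (113, 0, ⟨17, 2, 8⟩, T2_9), (113, 1, ⟨256, 1, 49⟩, T1_0), (113, 1, ⟨17, 2, 8⟩, T2_9),
    (113, 2, ⟨256, 1, 49⟩, T1_0), (113, 2, ⟨17, 2, 8⟩, T2_9), (113, 3, ⟨256, 1, 49⟩, T1_0),
    (113, 3, ⟨17, 2, 8⟩, T2_9), (113, 4, ⟨256, 1, 49⟩, T1_0), (113, 4, ⟨17, 2, 8⟩, T2_9),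
    (113, 5, ⟨256, 1, 49⟩, T1_0), (113, 5, ⟨17, 2, 8⟩, T2_9), (113, 6, ⟨256, 1, 49⟩, T1_0),
    (113, 6, ⟨17, 2, 8⟩, T2_9), (113, 7, ⟨256, 1, 49⟩, T1_0), (113, 7, ⟨17, 2, 8⟩, T2_9),
    (113, 8, ⟨256, 1, 49⟩, T1_0), (113, 8, ⟨17, 2, 8⟩, T2_9), (113, 9, ⟨256, 1, 49⟩, T1_0),
    (113, 9, ⟨17, 2, 8⟩, T2_9), (114, 0, ⟨256, 1, 49⟩, T1_0), (114, 1, ⟨256, 1, 49⟩, T1_0),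
    (114, 2, ⟨256, 1, 49⟩, T1_0), (114, 3, ⟨256, 1, 49⟩, T1_0), (114, 4, ⟨256, 1, 49⟩, T1_0),
    (114, 5, ⟨256, 1, 49⟩, T1_0), (114, 6, ⟨256, 1, 49⟩, T1_0), (114, 7, ⟨256, 1, 49⟩, T1_0),
    (114, 8, ⟨256, 1, 49⟩, T1_0), (114, 9, ⟨256, 1, 49⟩, T1_0), (114, 10, ⟨256, 1, 49⟩, T1_0),
    (114, 11, ⟨256, 1, 49⟩, T1_0), (114, 12, ⟨256, 1, 49⟩, T1_0), (114, 13, ⟨256, 1, 49⟩, T1_0),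
    (114, 14, ⟨256, 1, 49⟩, T1_0), (114, 15, ⟨256, 1, 49⟩, T1_0), (114, 16, ⟨256, 1, 49⟩, T1_0),
    (114, 17, ⟨256, 1, 49⟩, T1_0), (114, 18, ⟨256, 1, 49⟩, T1_0), (114, 19, ⟨256, 1, 49⟩, T1_0),
    (114, 20, ⟨256, 1, 49⟩, T1_0), (114, 21, ⟨256, 1, 49⟩, T1_0), (114, 22, ⟨256, 1, 49⟩, T1_0),
    (114, 23, ⟨256, 1, 49⟩, T1_0), (114, 24, ⟨256, 1, 49⟩, T1_0), (114, 25, ⟨256, 1, 49⟩, T1_0),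
    (114, 26, ⟨256, 1, 49⟩, T1_0), (114, 27, ⟨256, 1, 49⟩, T1_0), (114, 28, ⟨256, 1, 49⟩, T1_0),
    (114, 29, ⟨256, 1, 49⟩, T1_0), (119, 0, ⟨256, 1, 49⟩, T1_0), (119, 0, ⟨17, 2, 8⟩, T2_9),
    (119, 1, ⟨256, 1, 49⟩, T1_0), (119, 1, ⟨17, 2, 8⟩, T2_9), (120, 0, ⟨256, 1, 49⟩, T1_0),
    (120, 1, ⟨256, 1, 49⟩, T1_0), (120, 2, ⟨256, 1, 49⟩, T1_0), (120, 3, ⟨256, 1, 49⟩, T1_0),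
    (120, 4, ⟨256, 1, 49⟩, T1_0), (120, 5, ⟨256, 1, 49⟩, T1_0), (120, 6, ⟨256, 1, 49⟩, T1_0),
    (120, 7, ⟨256, 1, 49⟩, T1_0), (120, 8, ⟨256, 1, 49⟩, T1_0), (120, 9, ⟨256, 1, 49⟩, T1_0),
    (120, 10, ⟨256, 1, 49⟩, T1_0), (120, 11, ⟨256, 1, 49⟩, T1_0), (120, 12, ⟨256, 1, 49⟩, T1_0),
    (120, 13, ⟨256, 1, 49⟩, T1_0), (120, 14, ⟨256, 1, 49⟩, T1_0), (120, 15, ⟨256, 1, 49⟩, T1_0),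
    (120, 16, ⟨256, 1, 49⟩, T1_0), (126, 0, ⟨256, 1, 49⟩, T1_0), (126, 1, ⟨256, 1, 49⟩, T1_0),
    (148, 0, ⟨256, 1, 49⟩, T1_0), (148, 0, ⟨17, 2, 8⟩, T2_9), (148, 0, ⟨18, 3, 9⟩, T3_38),
    (148, 0, ⟨33, 3, 15⟩, T3_37), (148, 0, ⟨258, 3, 51⟩, T3_34), (148, 0, ⟨273, 3, 57⟩, T3_36),
    (148, 0, ⟨273, 3, 57⟩, T3_33), (148, 0, ⟨288, 3, 63⟩, T3_17), (148, 0, ⟨513, 3, 99⟩, T3_32),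
    (148, 0, ⟨528, 3, 105⟩, T3_16), (149, 0, ⟨256, 1, 49⟩, T1_0), (149, 0, ⟨17, 2, 8⟩, T2_9),
    (149, 1, ⟨256, 1, 49⟩, T1_0), (149, 1, ⟨17, 2, 8⟩, T2_9), (150, 0, ⟨256, 1, 49⟩, T1_0),
    (150, 1, ⟨256, 1, 49⟩, T1_0), (150, 2, ⟨256, 1, 49⟩, T1_0), (150, 3, ⟨256, 1, 49⟩, T1_0),
    (154, 0, ⟨256, 1, 49⟩, T1_0), (154, 0, ⟨17, 2, 8⟩, T2_9), (154, 0, ⟨18, 3, 9⟩, T3_38),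
    (154, 0, ⟨33, 3, 15⟩, T3_37), (154, 0, ⟨258, 3, 51⟩, T3_34), (154, 0, ⟨273, 3, 57⟩, T3_36),
    (154, 0, ⟨273, 3, 57⟩, T3_33), (154, 0, ⟨288, 3, 63⟩, T3_17), (154, 0, ⟨513, 3, 99⟩, T3_32),
    (154, 0, ⟨528, 3, 105⟩, T3_16), (155, 0, ⟨256, 1, 49⟩, T1_0), (155, 0, ⟨17, 2, 8⟩, T2_9),
    (155, 1, ⟨256, 1, 49⟩, T1_0), (155, 1, ⟨17, 2, 8⟩, T2_9), (155, 2, ⟨256, 1, 49⟩, T1_0),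
    (155, 2, ⟨17, 2, 8⟩, T2_9), (155, 3, ⟨256, 1, 49⟩, T1_0), (155, 3, ⟨17, 2, 8⟩, T2_9),
    (155, 4, ⟨256, 1, 49⟩, T1_0), (155, 4, ⟨17, 2, 8⟩, T2_9), (156, 0, ⟨256, 1, 49⟩, T1_0),
    (156, 1, ⟨256, 1, 49⟩, T1_0), (156, 2, ⟨256, 1, 49⟩, T1_0), (156, 3, ⟨256, 1, 49⟩, T1_0),
    (156, 4, ⟨256, 1, 49⟩, T1_0), (156, 5, ⟨256, 1, 49⟩, T1_0), (156, 6, ⟨256, 1, 49⟩, T1_0),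
    (156, 7, ⟨256, 1, 49⟩, T1_0), (156, 8, ⟨256, 1, 49⟩, T1_0), (156, 9, ⟨256, 1, 49⟩, T1_0),
    (156, 10, ⟨256, 1, 49⟩, T1_0), (156, 11, ⟨256, 1, 49⟩, T1_0), (156, 12, ⟨256, 1, 49⟩, T1_0),
    (156, 13, ⟨256, 1, 49⟩, T1_0), (156, 14, ⟨256, 1, 49⟩, T1_0), (156, 15, ⟨256, 1, 49⟩, T1_0),
    (156, 16, ⟨256, 1, 49⟩, T1_0), (161, 0, ⟨256, 1, 49⟩, T1_0), (161, 0, ⟨17, 2, 8⟩, T2_9),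
    (161, 1, ⟨256, 1, 49⟩, T1_0), (161, 1, ⟨17, 2, 8⟩, T2_9), (162, 0, ⟨256, 1, 49⟩, T1_0),
    (162, 1, ⟨256, 1, 49⟩, T1_0), (162, 2, ⟨256, 1, 49⟩, T1_0), (162, 3, ⟨256, 1, 49⟩, T1_0),
    (162, 4, ⟨256, 1, 49⟩, T1_0), (162, 5, ⟨256, 1, 49⟩, T1_0), (162, 6, ⟨256, 1, 49⟩, T1_0),
    (162, 7, ⟨256, 1, 49⟩, T1_0), (162, 8, ⟨256, 1, 49⟩, T1_0), (162, 9, ⟨256, 1, 49⟩, T1_0),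
    (162, 10, ⟨256, 1, 49⟩, T1_0), (162, 11, ⟨256, 1, 49⟩, T1_0), (162, 12, ⟨256, 1, 49⟩, T1_0),
    (162, 13, ⟨256, 1, 49⟩, T1_0), (162, 14, ⟨256, 1, 49⟩, T1_0), (162, 15, ⟨256, 1, 49⟩, T1_0),
    (162, 16, ⟨256, 1, 49⟩, T1_0), (168, 0, ⟨256, 1, 49⟩, T1_0), (168, 1, ⟨256, 1, 49⟩, T1_0),
    (168, 2, ⟨256, 1, 49⟩, T1_0), (168, 3, ⟨256, 1, 49⟩, T1_0), (198, 0, ⟨256, 1, 49⟩, T1_0),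
    (198, 1, ⟨256, 1, 49⟩, T1_0), (204, 0, ⟨256, 1, 49⟩, T1_0), (204, 1, ⟨256, 1, 49⟩, T1_0),
    (204, 2, ⟨256, 1, 49⟩, T1_0), (204, 3, ⟨256, 1, 49⟩, T1_0), (204, 4, ⟨256, 1, 49⟩, T1_0),
    (210, 0, ⟨256, 1, 49⟩, T1_0), (210, 1, ⟨256, 1, 49⟩, T1_0) ]

def j47 : allJ GA lf J47 = true := by decide +kernel

end Pool.Agent.Work.MP_bde882_al.J62
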