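import Pool.Agent.Work.MP_bde882_al_h62.JobDefs

/-!
Job module 0 (generated).
-/

set_option autoImplicit false
set_option maxRecDepth 100000
set_option linter.defProp false

namespace Pool.Agent.Work.MP_bde882_al.J62

open Pool.Agent.Work.MP_bde882_al.Pg62
open Pool.Agent.Work.MP_bde882_al.Tab
open Pool.Agent.Work.MP_bde882_al.H69

noncomputable def J0 : List (ℕ × ℕ × Hd × Op) :=
  [ (0, 0, ⟨256, 1, 49⟩, T1_0), (0, 0, ⟨17, 2, 8⟩, T2_9), (0, 0, ⟨18, 3, 9⟩, T3_38),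
    (0, 0, ⟨33, 3, 15⟩, T3_37), (0, 0, ⟨258, 3, 51⟩, T3_34), (0, 0, ⟨273, 3, 57⟩, T3_36),
    (0, 0, ⟨273, 3, 57⟩, T3_33), (0, 0, ⟨288, 3, 63⟩, T3_17), (0, 0, ⟨513, 3, 99⟩, T3_32),
    (0, 0, ⟨528, 3, 105⟩, T3_16), (0, 0, ⟨19, 4, 10⟩, T4_154), (0, 0, ⟨34, 4, 16⟩, T4_153),
    (0, 0, ⟨49, 4, 22⟩, T4_149), (0, 0, ⟨259, 4, 52⟩, T4_138) ]

def j0 : allJ GA lf J0 = true := by decide +kernel

end Pool.Agent.Work.MP_bde882_al.J62
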