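import Pool.Agent.Work.MP_bde882_al_h62.JobDefs

/-!
Job module 32 (generated).
-/

set_option autoImplicit false
set_option maxRecDepth 100000
set_option linter.defProp false

namespace Pool.Agent.Work.MP_bde882_al.J62

open Pool.Agent.Work.MP_bde882_al.Pg62
open Pool.Agent.Work.MP_bde882_al.Tab
open Pool.Agent.Work.MP_bde882_al.H69

noncomputable def J32 : List (ℕ × ℕ × Hd × Op) :=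
  [ (1, 0, ⟨306, 6, 72⟩, T6_2452), (1, 0, ⟨306, 6, 72⟩, T6_2392), (1, 0, ⟨306, 6, 72⟩, T6_2449),
    (1, 0, ⟨306, 6, 72⟩, T6_2437), (1, 0, ⟨306, 6, 72⟩, T6_2197), (1, 0, ⟨306, 6, 72⟩, T6_2341),
    (1, 0, ⟨306, 6, 72⟩, T6_2377), (1, 0, ⟨306, 6, 72⟩, T6_2329), (1, 0, ⟨306, 6, 72⟩, T6_2386),
    (1, 0, ⟨306, 6, 72⟩, T6_2374), (1, 0, ⟨321, 6, 78⟩, T6_2388), (1, 0, ⟨321, 6, 78⟩, T6_2385),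
    (1, 0, ⟨321, 6, 78⟩, T6_2373), (1, 0, ⟨321, 6, 78⟩, T6_2325), (1, 0, ⟨321, 6, 78⟩, T6_2133),
    (1, 0, ⟨336, 6, 84⟩, T6_1109), (1, 0, ⟨516, 6, 102⟩, T6_2216), (1, 0, ⟨516, 6, 102⟩, T6_2210),
    (1, 0, ⟨531, 6, 108⟩, T6_2464), (1, 0, ⟨531, 6, 108⟩, T6_2212), (1, 0, ⟨531, 6, 108⟩, T6_2440),
    (1, 0, ⟨531, 6, 108⟩, T6_2200), (1, 0, ⟨531, 6, 108⟩, T6_2209), (1, 0, ⟨531, 6, 108⟩, T6_2185),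
    (1, 0, ⟨531, 6, 108⟩, T6_2434), (1, 0, ⟨531, 6, 108⟩, T6_2194), (1, 0, ⟨531, 6, 108⟩, T6_2338),
    (1, 0, ⟨531, 6, 108⟩, T6_2182), (1, 0, ⟨546, 6, 114⟩, T6_2448), (1, 0, ⟨546, 6, 114⟩, T6_2436),
    (1, 0, ⟨546, 6, 114⟩, T6_2196), (1, 0, ⟨546, 6, 114⟩, T6_2340), (1, 0, ⟨546, 6, 114⟩, T6_2376),
    (1, 0, ⟨546, 6, 114⟩, T6_2328), (1, 0, ⟨546, 6, 114⟩, T6_2433), (1, 0, ⟨546, 6, 114⟩, T6_2193),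
    (1, 0, ⟨546, 6, 114⟩, T6_2337), (1, 0, ⟨546, 6, 114⟩, T6_2181), (1, 0, ⟨546, 6, 114⟩, T6_2313),
    (1, 0, ⟨546, 6, 114⟩, T6_2121), (1, 0, ⟨546, 6, 114⟩, T6_2370), (1, 0, ⟨546, 6, 114⟩, T6_2322),
    (1, 0, ⟨561, 6, 120⟩, T6_2384), (1, 0, ⟨561, 6, 120⟩, T6_2372), (1, 0, ⟨561, 6, 120⟩, T6_2324),
    (1, 0, ⟨561, 6, 120⟩, T6_2132), (1, 0, ⟨561, 6, 120⟩, T6_2369), (1, 0, ⟨561, 6, 120⟩, T6_2321),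
    (1, 0, ⟨561, 6, 120⟩, T6_2129), (1, 0, ⟨561, 6, 120⟩, T6_2309), (1, 0, ⟨561, 6, 120⟩, T6_2117),
    (1, 0, ⟨561, 6, 120⟩, T6_2069), (1, 0, ⟨576, 6, 126⟩, T6_1108), (1, 0, ⟨576, 6, 126⟩, T6_1105),
    (1, 0, ⟨771, 6, 150⟩, T6_2208), (1, 0, ⟨771, 6, 150⟩, T6_2184), (1, 0, ⟨771, 6, 150⟩, T6_2178),
    (1, 0, ⟨786, 6, 156⟩, T6_2432), (1, 0, ⟨786, 6, 156⟩, T6_2192), (1, 0, ⟨786, 6, 156⟩, T6_2336),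
    (1, 0, ⟨786, 6, 156⟩, T6_2180), (1, 0, ⟨786, 6, 156⟩, T6_2312), (1, 0, ⟨786, 6, 156⟩, T6_2120),
    (1, 0, ⟨786, 6, 156⟩, T6_2177), (1, 0, ⟨786, 6, 156⟩, T6_2057), (1, 0, ⟨786, 6, 156⟩, T6_2306),
    (1, 0, ⟨786, 6, 156⟩, T6_2114), (1, 0, ⟨801, 6, 162⟩, T6_2368), (1, 0, ⟨801, 6, 162⟩, T6_2320),
    (1, 0, ⟨801, 6, 162⟩, T6_2128), (1, 0, ⟨801, 6, 162⟩, T6_2308), (1, 0, ⟨801, 6, 162⟩, T6_2116),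
    (1, 0, ⟨801, 6, 162⟩, T6_2068), (1, 0, ⟨801, 6, 162⟩, T6_2305), (1, 0, ⟨801, 6, 162⟩, T6_2113),
    (1, 0, ⟨801, 6, 162⟩, T6_2065), (1, 0, ⟨801, 6, 162⟩, T6_2053), (1, 0, ⟨816, 6, 168⟩, T6_1104),
    (1, 0, ⟨816, 6, 168⟩, T6_1092), (1, 0, ⟨816, 6, 168⟩, T6_1089), (1, 0, ⟨1026, 6, 198⟩, T6_2176),
    (1, 0, ⟨1026, 6, 198⟩, T6_2056), (1, 0, ⟨1041, 6, 204⟩, T6_2304),
    (1, 0, ⟨1041, 6, 204⟩, T6_2112), (1, 0, ⟨1041, 6, 204⟩, T6_2064),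
    (1, 0, ⟨1041, 6, 204⟩, T6_2052), (1, 0, ⟨1041, 6, 204⟩, T6_2049),
    (1, 0, ⟨1056, 6, 210⟩, T6_1088), (1, 0, ⟨1056, 6, 210⟩, T6_1028),
    (1, 0, ⟨1281, 6, 246⟩, T6_2048), (1, 0, ⟨1296, 6, 252⟩, T6_1024), (7, 0, ⟨256, 1, 49⟩, T1_0),
    (7, 0, ⟨17, 2, 8⟩, T2_9), (7, 0, ⟨18, 3, 9⟩, T3_38), (7, 0, ⟨33, 3, 15⟩, T3_37),
    (7, 0, ⟨258, 3, 51⟩, T3_34), (7, 0, ⟨273, 3, 57⟩, T3_36), (7, 0, ⟨273, 3, 57⟩, T3_33),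
    (7, 0, ⟨288, 3, 63⟩, T3_17), (7, 0, ⟨513, 3, 99⟩, T3_32), (7, 0, ⟨528, 3, 105⟩, T3_16),
    (7, 0, ⟨19, 4, 10⟩, T4_154), (7, 0, ⟨34, 4, 16⟩, T4_153), (7, 0, ⟨49, 4, 22⟩, T4_149) ]

def j32 : allJ GA lf J32 = true := by decide +kernel

end Pool.Agent.Work.MP_bde882_al.J62
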