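import Pool.Agent.Work.MP_bde882_al_h62.JobDefs

/-!
Job module 43 (generated).
-/

set_option autoImplicit false
set_option maxRecDepth 100000
set_option linter.defProp false

namespace Pool.Agent.Work.MP_bde882_al.J62

open Pool.Agent.Work.MP_bde882_al.Pg62
open Pool.Agent.Work.MP_bde882_al.Tab
open Pool.Agent.Work.MP_bde882_al.H69

noncomputable def J43 : List (ℕ × ℕ × Hd × Op) :=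
  [ (49, 0, ⟨530, 5, 107⟩, T5_608), (49, 0, ⟨530, 5, 107⟩, T5_548), (49, 0, ⟨530, 5, 107⟩, T5_584),
    (49, 0, ⟨530, 5, 107⟩, T5_545), (49, 0, ⟨530, 5, 107⟩, T5_578), (49, 0, ⟨530, 5, 107⟩, T5_530),
    (49, 0, ⟨545, 5, 113⟩, T5_592), (49, 0, ⟨545, 5, 113⟩, T5_580), (49, 0, ⟨545, 5, 113⟩, T5_532),
    (49, 0, ⟨545, 5, 113⟩, T5_577), (49, 0, ⟨545, 5, 113⟩, T5_529), (49, 0, ⟨545, 5, 113⟩, T5_517),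
    (49, 0, ⟨560, 5, 119⟩, T5_276), (49, 0, ⟨560, 5, 119⟩, T5_273), (49, 0, ⟨770, 5, 149⟩, T5_544),
    (49, 0, ⟨770, 5, 149⟩, T5_514), (49, 0, ⟨785, 5, 155⟩, T5_576), (49, 0, ⟨785, 5, 155⟩, T5_528),
    (49, 0, ⟨785, 5, 155⟩, T5_516), (49, 0, ⟨785, 5, 155⟩, T5_513), (49, 0, ⟨800, 5, 161⟩, T5_272),
    (49, 0, ⟨800, 5, 161⟩, T5_257), (49, 0, ⟨1025, 5, 197⟩, T5_512), (49, 0, ⟨1040, 5, 203⟩, T5_256),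
    (49, 0, ⟨21, 6, 12⟩, T6_2474), (49, 0, ⟨36, 6, 18⟩, T6_2473), (49, 0, ⟨36, 6, 18⟩, T6_2470),
    (49, 0, ⟨51, 6, 24⟩, T6_2469), (49, 0, ⟨51, 6, 24⟩, T6_2457), (49, 0, ⟨51, 6, 24⟩, T6_2454),
    (49, 0, ⟨66, 6, 30⟩, T6_2453), (49, 0, ⟨66, 6, 30⟩, T6_2393), (49, 0, ⟨81, 6, 36⟩, T6_2389),
    (49, 0, ⟨261, 6, 54⟩, T6_2218), (49, 0, ⟨276, 6, 60⟩, T6_2472), (49, 0, ⟨276, 6, 60⟩, T6_2217),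
    (49, 0, ⟨276, 6, 60⟩, T6_2466), (49, 0, ⟨276, 6, 60⟩, T6_2214), (49, 0, ⟨276, 6, 60⟩, T6_2442),
    (49, 0, ⟨291, 6, 66⟩, T6_2468), (49, 0, ⟨291, 6, 66⟩, T6_2456), (49, 0, ⟨291, 6, 66⟩, T6_2465),
    (49, 0, ⟨291, 6, 66⟩, T6_2213), (49, 0, ⟨291, 6, 66⟩, T6_2441), (49, 0, ⟨291, 6, 66⟩, T6_2201),
    (49, 0, ⟨291, 6, 66⟩, T6_2450), (49, 0, ⟨291, 6, 66⟩, T6_2438), (49, 0, ⟨291, 6, 66⟩, T6_2198),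
    (49, 0, ⟨291, 6, 66⟩, T6_2342), (49, 0, ⟨306, 6, 72⟩, T6_2452), (49, 0, ⟨306, 6, 72⟩, T6_2392),
    (49, 0, ⟨306, 6, 72⟩, T6_2449), (49, 0, ⟨306, 6, 72⟩, T6_2437), (49, 0, ⟨306, 6, 72⟩, T6_2197),
    (49, 0, ⟨306, 6, 72⟩, T6_2341), (49, 0, ⟨306, 6, 72⟩, T6_2377), (49, 0, ⟨306, 6, 72⟩, T6_2329),
    (49, 0, ⟨306, 6, 72⟩, T6_2386), (49, 0, ⟨306, 6, 72⟩, T6_2374), (49, 0, ⟨321, 6, 78⟩, T6_2388),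
    (49, 0, ⟨321, 6, 78⟩, T6_2385), (49, 0, ⟨321, 6, 78⟩, T6_2373), (49, 0, ⟨321, 6, 78⟩, T6_2325),
    (49, 0, ⟨321, 6, 78⟩, T6_2133), (49, 0, ⟨336, 6, 84⟩, T6_1109), (49, 0, ⟨516, 6, 102⟩, T6_2216),
    (49, 0, ⟨516, 6, 102⟩, T6_2210), (49, 0, ⟨531, 6, 108⟩, T6_2464),
    (49, 0, ⟨531, 6, 108⟩, T6_2212), (49, 0, ⟨531, 6, 108⟩, T6_2440),
    (49, 0, ⟨531, 6, 108⟩, T6_2200), (49, 0, ⟨531, 6, 108⟩, T6_2209),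
    (49, 0, ⟨531, 6, 108⟩, T6_2185), (49, 0, ⟨531, 6, 108⟩, T6_2434),
    (49, 0, ⟨531, 6, 108⟩, T6_2194), (49, 0, ⟨531, 6, 108⟩, T6_2338),
    (49, 0, ⟨531, 6, 108⟩, T6_2182), (49, 0, ⟨546, 6, 114⟩, T6_2448),
    (49, 0, ⟨546, 6, 114⟩, T6_2436), (49, 0, ⟨546, 6, 114⟩, T6_2196),
    (49, 0, ⟨546, 6, 114⟩, T6_2340), (49, 0, ⟨546, 6, 114⟩, T6_2376),
    (49, 0, ⟨546, 6, 114⟩, T6_2328), (49, 0, ⟨546, 6, 114⟩, T6_2433),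
    (49, 0, ⟨546, 6, 114⟩, T6_2193), (49, 0, ⟨546, 6, 114⟩, T6_2337),
    (49, 0, ⟨546, 6, 114⟩, T6_2181), (49, 0, ⟨546, 6, 114⟩, T6_2313),
    (49, 0, ⟨546, 6, 114⟩, T6_2121), (49, 0, ⟨546, 6, 114⟩, T6_2370),
    (49, 0, ⟨546, 6, 114⟩, T6_2322), (49, 0, ⟨561, 6, 120⟩, T6_2384),
    (49, 0, ⟨561, 6, 120⟩, T6_2372), (49, 0, ⟨561, 6, 120⟩, T6_2324),
    (49, 0, ⟨561, 6, 120⟩, T6_2132), (49, 0, ⟨561, 6, 120⟩, T6_2369),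
    (49, 0, ⟨561, 6, 120⟩, T6_2321), (49, 0, ⟨561, 6, 120⟩, T6_2129),
    (49, 0, ⟨561, 6, 120⟩, T6_2309), (49, 0, ⟨561, 6, 120⟩, T6_2117),
    (49, 0, ⟨561, 6, 120⟩, T6_2069), (49, 0, ⟨576, 6, 126⟩, T6_1108),
    (49, 0, ⟨576, 6, 126⟩, T6_1105), (49, 0, ⟨771, 6, 150⟩, T6_2208),
    (49, 0, ⟨771, 6, 150⟩, T6_2184), (49, 0, ⟨771, 6, 150⟩, T6_2178),
    (49, 0, ⟨786, 6, 156⟩, T6_2432), (49, 0, ⟨786, 6, 156⟩, T6_2192),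
    (49, 0, ⟨786, 6, 156⟩, T6_2336), (49, 0, ⟨786, 6, 156⟩, T6_2180),
    (49, 0, ⟨786, 6, 156⟩, T6_2312), (49, 0, ⟨786, 6, 156⟩, T6_2120),
    (49, 0, ⟨786, 6, 156⟩, T6_2177), (49, 0, ⟨786, 6, 156⟩, T6_2057),
    (49, 0, ⟨786, 6, 156⟩, T6_2306), (49, 0, ⟨786, 6, 156⟩, T6_2114),
    (49, 0, ⟨801, 6, 162⟩, T6_2368), (49, 0, ⟨801, 6, 162⟩, T6_2320),
    (49, 0, ⟨801, 6, 162⟩, T6_2128), (49, 0, ⟨801, 6, 162⟩, T6_2308),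
    (49, 0, ⟨801, 6, 162⟩, T6_2116), (49, 0, ⟨801, 6, 162⟩, T6_2068),
    (49, 0, ⟨801, 6, 162⟩, T6_2305), (49, 0, ⟨801, 6, 162⟩, T6_2113),
    (49, 0, ⟨801, 6, 162⟩, T6_2065), (49, 0, ⟨801, 6, 162⟩, T6_2053),
    (49, 0, ⟨816, 6, 168⟩, T6_1104), (49, 0, ⟨816, 6, 168⟩, T6_1092),
    (49, 0, ⟨816, 6, 168⟩, T6_1089), (49, 0, ⟨1026, 6, 198⟩, T6_2176),
    (49, 0, ⟨1026, 6, 198⟩, T6_2056), (49, 0, ⟨1041, 6, 204⟩, T6_2304),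
    (49, 0, ⟨1041, 6, 204⟩, T6_2112), (49, 0, ⟨1041, 6, 204⟩, T6_2064),
    (49, 0, ⟨1041, 6, 204⟩, T6_2052), (49, 0, ⟨1041, 6, 204⟩, T6_2049),
    (49, 0, ⟨1056, 6, 210⟩, T6_1088), (49, 0, ⟨1056, 6, 210⟩, T6_1028),
    (49, 0, ⟨1281, 6, 246⟩, T6_2048), (49, 0, ⟨1296, 6, 252⟩, T6_1024), (50, 0, ⟨256, 1, 49⟩, T1_0),
    (50, 0, ⟨17, 2, 8⟩, T2_9), (50, 0, ⟨18, 3, 9⟩, T3_38), (50, 0, ⟨33, 3, 15⟩, T3_37),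
    (50, 0, ⟨258, 3, 51⟩, T3_34), (50, 0, ⟨273, 3, 57⟩, T3_36), (50, 0, ⟨273, 3, 57⟩, T3_33),
    (50, 0, ⟨288, 3, 63⟩, T3_17), (50, 0, ⟨513, 3, 99⟩, T3_32), (50, 0, ⟨528, 3, 105⟩, T3_16) ]

def j43 : allJ GA lf J43 = true := by decide +kernel

end Pool.Agent.Work.MP_bde882_al.J62
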